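import Mathlib
import Pool.Agent.LibRank66.Shearer

set_option linter.unusedSimpArgs false

open Filter Topology

namespace Pool.Agent.LibConn77

/-! ### Definitions -/

/-- `G` has no induced subgraph isomorphic to `H`. -/
def HFree {W V : Type*} (H : SimpleGraph W) (G : SimpleGraph V) : Prop := ¬ H.IsIndContained G

/-- The number of labelled graphs on the vertex set `Fin n` which satisfy `P`. -/
noncomputable def labCount (n : ℕ) (P : SimpleGraph (Fin n) → Prop) : ℕ := {G | P G}.ncard

/-- Isomorphism of graphs on the vertex set `Fin n`, as a setoid. -/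
def isoSetoid (n : ℕ) : Setoid (SimpleGraph (Fin n)) where
  r G G' := Nonempty (G ≃g G')
  iseqv := ⟨fun _ => ⟨SimpleGraph.Iso.refl⟩, fun ⟨f⟩ => ⟨f.symm⟩, fun ⟨f⟩ ⟨g⟩ => ⟨f.trans g⟩⟩

/-- The number of isomorphism classes of graphs on `n` vertices which contain a graph
satisfying `P`. -/
noncomputable def unlCount (n : ℕ) (P : SimpleGraph (Fin n) → Prop) : ℕ :=
  ((Quotient.mk (isoSetoid n)) '' {G | P G}).ncard

/-- Labelled model: the probability that a uniformly random `H`-free graph on `Fin n` is
connected. -/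
noncomputable def labProb {W : Type*} (H : SimpleGraph W) (n : ℕ) : ℝ :=
  (labCount n (fun G => HFree H G ∧ G.Connected) : ℝ) / (labCount n (fun G => HFree H G) : ℝ)

/-- Unlabelled model: the probability that a uniformly random isomorphism class of `H`-free
graphs on `n` vertices consists of connected graphs. -/
noncomputable def unlProb {W : Type*} (H : SimpleGraph W) (n : ℕ) : ℝ :=
  (unlCount n (fun G => HFree H G ∧ G.Connected) : ℝ) / (unlCount n (fun G => HFree H G) : ℝ)

/-- The sequence converges to a limit strictly between `0` and `1`. -/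
def LimitProperty (p : ℕ → ℝ) : Prop := ∃ l : ℝ, 0 < l ∧ l < 1 ∧ Tendsto p atTop (𝓝 l)

/-! ### Basic facts -/

lemma HFree.of_embedding {W V V' : Type*} {H : SimpleGraph W} {G : SimpleGraph V}
    {G' : SimpleGraph V'} (hG : HFree H G) (f : G' ↪g G) : HFree H G' := by
  rintro ⟨g⟩
  exact hG ⟨f.comp g⟩

lemma HFree.of_iso {W V V' : Type*} {H : SimpleGraph W} {G : SimpleGraph V}
    {G' : SimpleGraph V'} (hG : HFree H G) (f : G ≃g G') : HFree H G' :=
  hG.of_embedding f.symm.toEmbedding

lemma labCount_add (n : ℕ) (P Q : SimpleGraph (Fin n) → Prop) :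
    labCount n P = labCount n (fun G => P G ∧ Q G) + labCount n (fun G => P G ∧ ¬ Q G) := by
  unfold labCount
  rw [← Set.ncard_union_eq]
  · congr 1
    ext G
    simp only [Set.mem_ofPred_eq, Set.mem_union]
    tauto
  · rw [Set.disjoint_left]
    rintro G ⟨_, h⟩ ⟨_, h'⟩
    exact h' h

lemma unlCount_add (n : ℕ) (P Q : SimpleGraph (Fin n) → Prop)
    (hQ : ∀ G G' : SimpleGraph (Fin n), Nonempty (G ≃g G') → Q G → Q G') :
    unlCount n P = unlCount n (fun G => P G ∧ Q G) + unlCount n (fun G => P G ∧ ¬ Q G) := by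
  unfold unlCount
  rw [← Set.ncard_union_eq]
  · congr 1
    rw [← Set.image_union]
    congr 1
    ext G
    simp only [Set.mem_ofPred_eq, Set.mem_union]
    tauto
  · rw [Set.disjoint_left]
    rintro c ⟨G, ⟨_, h⟩, rfl⟩ ⟨G', ⟨_, h'⟩, e⟩
    have e' : Nonempty (G' ≃g G) := Quotient.exact (s := isoSetoid n) e
    exact h' (hQ G G' ⟨e'.some.symm⟩ h)

lemma connected_of_iso (n : ℕ) (G G' : SimpleGraph (Fin n)) (h : Nonempty (G ≃g G'))
    (hG : G.Connected) : G'.Connected := (SimpleGraph.Iso.connected_iff h.some).1 hG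

/-- splitting a disconnected graph -/
lemma exists_split {n : ℕ} (hn : 1 ≤ n) (G : SimpleGraph (Fin n)) (hG : ¬ G.Connected) :
    ∃ k ∈ Finset.Icc 1 (n / 2), ∃ U : Finset (Fin n), U.card = k ∧
      ∀ x ∈ U, ∀ y ∉ U, ¬ G.Adj x y := by
  classical
  have : Nonempty (Fin n) := ⟨⟨0, hn⟩⟩
  have h1 : ¬ G.Preconnected := fun h => hG ⟨h⟩
  have h2 : ∃ x y, ¬ G.Reachable x y := by
    by_contra hcon
    push Not at hcon
    exact h1 (fun x y => hcon x y)
  obtain ⟨x, y, hxy⟩ := h2
  set U : Finset (Fin n) := Finset.univ.filter (fun z => G.Reachable x z) with hU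
  have hxU : x ∈ U := by simp [hU]
  have hyU : y ∉ U := by simp [hU, hxy]
  have hno : ∀ a ∈ U, ∀ b ∉ U, ¬ G.Adj a b := by
    intro a ha b hb hab
    apply hb
    simp only [hU, Finset.mem_filter, Finset.mem_univ, true_and] at ha ⊢
    exact ha.trans hab.reachable
  have hc : U.card + Uᶜ.card = n := by
    rw [Finset.card_add_card_compl, Fintype.card_fin]
  have hU1 : 1 ≤ U.card := Finset.card_pos.2 ⟨x, hxU⟩
  have hU2 : 1 ≤ Uᶜ.card := Finset.card_pos.2 ⟨y, by simpa using hyU⟩
  by_cases hle : U.card ≤ n / 2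
  · exact ⟨U.card, by simp only [Finset.mem_Icc]; omega, U, rfl, hno⟩
  · refine ⟨Uᶜ.card, by simp only [Finset.mem_Icc]; omega, Uᶜ, rfl, ?_⟩
    intro a ha b hb hab
    simp only [Finset.mem_compl, not_not] at ha hb
    exact hno b hb a ha hab.symm

lemma ncard_biUnion_le {ι α : Type*} [Finite α] (s : Finset ι) (f : ι → Set α) :
    (⋃ i ∈ s, f i).ncard ≤ ∑ i ∈ s, (f i).ncard := by
  classical
  induction s using Finset.induction_on with
  | empty => simp
  | insert a s ha ih =>
    rw [Finset.set_biUnion_insert, Finset.sum_insert ha]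
    exact (Set.ncard_union_le _ _).trans (Nat.add_le_add_left ih _)

/-- the graphs with no edges between `U` and its complement -/
def splitSet {W : Type*} (H : SimpleGraph W) (n : ℕ) (U : Finset (Fin n)) :
    Set (SimpleGraph (Fin n)) :=
  {G | HFree H G ∧ ∀ x ∈ U, ∀ y ∉ U, ¬ G.Adj x y}

lemma splitSet_ncard_le {W : Type*} (H : SimpleGraph W) (n : ℕ) (U : Finset (Fin n)) (k : ℕ)
    (hk : U.card = k) :
    (splitSet H n U).ncard ≤ labCount k (fun G => HFree H G) * labCount (n - k)
      (fun G => HFree H G) := by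
  classical
  have hk' : Uᶜ.card = n - k := by
    rw [Finset.card_compl, Fintype.card_fin, hk]
  unfold labCount
  rw [← Set.ncard_prod]
  let e1 := U.orderEmbOfFin hk
  let e2 := Uᶜ.orderEmbOfFin hk'
  refine Set.ncard_le_ncard_of_injOn
    (fun G : SimpleGraph (Fin n) => (G.comap e1, G.comap e2)) ?_ ?_ (Set.toFinite _)
  · rintro G ⟨hG, _⟩
    refine ⟨?_, ?_⟩
    · exact hG.of_embedding (SimpleGraph.Embedding.comap e1.toEmbedding G)
    · exact hG.of_embedding (SimpleGraph.Embedding.comap e2.toEmbedding G)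
  · rintro G ⟨_, hG⟩ G' ⟨_, hG'⟩ heq
    simp only [Prod.mk.injEq] at heq
    obtain ⟨h1, h2⟩ := heq
    ext x y
    have hin1 : ∀ z, z ∈ U → ∃ i, e1 i = z := by
      intro z hz
      have : z ∈ Set.range e1 := by
        rw [Finset.range_orderEmbOfFin]; exact hz
      exact this
    have hin2 : ∀ z, z ∉ U → ∃ i, e2 i = z := by
      intro z hz
      have : z ∈ Set.range e2 := by
        rw [Finset.range_orderEmbOfFin]; simpa using hz
      exact this
    by_cases hx : x ∈ U
    · by_cases hy : y ∈ U
      · obtain ⟨i, rfl⟩ := hin1 x hx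
        obtain ⟨j, rfl⟩ := hin1 y hy
        have := congrArg (fun K : SimpleGraph (Fin k) => K.Adj i j) h1
        simpa using this
      · exact iff_of_false (hG x hx y hy) (hG' x hx y hy)
    · by_cases hy : y ∈ U
      · exact iff_of_false (fun h => hG y hy x hx h.symm) (fun h => hG' y hy x hx h.symm)
      · obtain ⟨i, rfl⟩ := hin2 x hx
        obtain ⟨j, rfl⟩ := hin2 y hy
        have := congrArg (fun K : SimpleGraph (Fin (n - k)) => K.Adj i j) h2
        simpa using this

lemma labelled_split {W : Type*} (H : SimpleGraph W) (n : ℕ) (hn : 1 ≤ n) :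
    labCount n (fun G => HFree H G ∧ ¬ G.Connected) ≤
      ∑ k ∈ Finset.Icc 1 (n / 2), n.choose k *
        (labCount k (fun G => HFree H G) * labCount (n - k) (fun G => HFree H G)) := by
  classical
  have h1 : {G : SimpleGraph (Fin n) | HFree H G ∧ ¬ G.Connected} ⊆
      ⋃ k ∈ Finset.Icc 1 (n / 2), ⋃ U ∈ Finset.powersetCard k (Finset.univ : Finset (Fin n)),
        splitSet H n U := by
    rintro G ⟨hG, hc⟩
    obtain ⟨k, hk, U, hU, hno⟩ := exists_split hn G hc
    simp only [Set.mem_iUnion]
    exact ⟨k, hk, U, by rw [Finset.mem_powersetCard]; exact ⟨Finset.subset_univ _, hU⟩, hG, hno⟩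
  unfold labCount
  refine (Set.ncard_le_ncard h1 (Set.toFinite _)).trans ?_
  refine (ncard_biUnion_le _ _).trans ?_
  apply Finset.sum_le_sum
  intro k hk
  refine (ncard_biUnion_le _ _).trans ?_
  calc ∑ U ∈ Finset.powersetCard k (Finset.univ : Finset (Fin n)), (splitSet H n U).ncard
      ≤ ∑ U ∈ Finset.powersetCard k (Finset.univ : Finset (Fin n)),
        (labCount k (fun G => HFree H G) * labCount (n - k) (fun G => HFree H G)) := by
        apply Finset.sum_le_sum
        intro U hU
        rw [Finset.mem_powersetCard] at hU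
        exact splitSet_ncard_le H n U k hU.2
    _ = n.choose k *
        (labCount k (fun G => HFree H G) * labCount (n - k) (fun G => HFree H G)) := by
        rw [Finset.sum_const, Finset.card_powersetCard, Finset.card_univ, Fintype.card_fin,
          smul_eq_mul]
    _ = _ := rfl

/-- the class of a disjoint union -/
lemma isoSetoid_out {n : ℕ} (G : SimpleGraph (Fin n)) :
    Nonempty ((Quotient.mk (isoSetoid n) G).out ≃g G) :=
  Quotient.exact (s := isoSetoid n) (Quotient.out_eq (Quotient.mk (isoSetoid n) G))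

lemma labCount_le_factorial_mul {W : Type*} (H : SimpleGraph W) (n : ℕ) :
    labCount n (fun G => HFree H G) ≤ n.factorial * unlCount n (fun G => HFree H G) := by
  classical
  have h1 : {G : SimpleGraph (Fin n) | HFree H G} ⊆
      (fun p : Equiv.Perm (Fin n) × Quotient (isoSetoid n) => (p.2.out).comap p.1) ''
        ((Set.univ : Set (Equiv.Perm (Fin n))) ×ˢ
          ((Quotient.mk (isoSetoid n)) '' {G | HFree H G})) := by
    intro G hG
    obtain ⟨φ⟩ := isoSetoid_out G
    refine ⟨(φ.symm.toEquiv, Quotient.mk _ G), ⟨Set.mem_univ _, ⟨G, hG, rfl⟩⟩, ?_⟩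
    ext x y
    simp only [SimpleGraph.comap_adj]
    exact φ.symm.map_adj_iff
  unfold labCount unlCount
  refine (Set.ncard_le_ncard h1 (Set.toFinite _)).trans ?_
  refine (Set.ncard_image_le (Set.toFinite _)).trans ?_
  rw [Set.ncard_prod, Set.ncard_univ, Nat.card_perm, Nat.card_fin]

lemma unlCount_le_labCount (n : ℕ) (P : SimpleGraph (Fin n) → Prop) :
    unlCount n P ≤ labCount n P := Set.ncard_image_le (Set.toFinite _)

/-! ### Lower bound for the number of `H`-free graphs -/

/-- `H` splits into two parts, each a clique or an independent set as prescribed by `f`. -/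
def Splits {W : Type*} (H : SimpleGraph W) (f : Bool → Bool) : Prop :=
  ∃ c : W → Bool, ∀ x y, x ≠ y → c x = c y → (H.Adj x y ↔ f (c x) = true)

/-- a graph with two prescribed parts and prescribed bipartite graph in between -/
def twoPart (n : ℕ) (f : Bool → Bool)
    (T : {i : Fin n // i.1 < n / 2} → {i : Fin n // ¬ i.1 < n / 2} → Bool) :
    SimpleGraph (Fin n) where
  Adj x y := x ≠ y ∧
    ((∃ (_ : x.1 < n / 2) (_ : y.1 < n / 2), f true = true) ∨
     (∃ (_ : ¬ x.1 < n / 2) (_ : ¬ y.1 < n / 2), f false = true) ∨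
     (∃ (hx : x.1 < n / 2) (hy : ¬ y.1 < n / 2), T ⟨x, hx⟩ ⟨y, hy⟩ = true) ∨
     (∃ (hx : ¬ x.1 < n / 2) (hy : y.1 < n / 2), T ⟨y, hy⟩ ⟨x, hx⟩ = true))
  symm := by
    constructor
    rintro x y ⟨hne, h⟩
    refine ⟨hne.symm, ?_⟩
    rcases h with ⟨hx, hy, h⟩ | ⟨hx, hy, h⟩ | ⟨hx, hy, h⟩ | ⟨hx, hy, h⟩
    · exact Or.inl ⟨hy, hx, h⟩
    · exact Or.inr (Or.inl ⟨hy, hx, h⟩)
    · exact Or.inr (Or.inr (Or.inr ⟨hy, hx, h⟩))
    · exact Or.inr (Or.inr (Or.inl ⟨hy, hx, h⟩))
  loopless := ⟨fun x h => h.1 rfl⟩

lemma twoPart_hfree {W : Type*} (H : SimpleGraph W) (n : ℕ) (f : Bool → Bool)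
    (hH : ¬ Splits H f)
    (T : {i : Fin n // i.1 < n / 2} → {i : Fin n // ¬ i.1 < n / 2} → Bool) :
    HFree H (twoPart n f T) := by
  classical
  rintro ⟨φ⟩
  apply hH
  refine ⟨fun w => decide ((φ w).1 < n / 2), ?_⟩
  intro x y hxy hc
  have hne : φ x ≠ φ y := fun h => hxy (φ.injective h)
  rw [← φ.map_adj_iff]
  by_cases hx : (φ x).1 < n / 2
  · have hy : (φ y).1 < n / 2 := by
      simp only [hx, decide_true] at hc
      exact of_decide_eq_true hc.symm
    have hdx : decide ((φ x).1 < n / 2) = true := decide_eq_true hx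
    change (φ x ≠ φ y ∧ _) ↔ f (decide ((φ x).1 < n / 2)) = true
    rw [hdx]
    constructor
    · rintro ⟨_, ⟨_, _, h⟩ | ⟨h, _, _⟩ | ⟨_, h, _⟩ | ⟨h, _, _⟩⟩
      · exact h
      · exact absurd hx h
      · exact absurd hy h
      · exact absurd hx h
    · intro h
      exact ⟨hne, Or.inl ⟨hx, hy, h⟩⟩
  · have hy : ¬ (φ y).1 < n / 2 := by
      simp only [hx, decide_false] at hc
      exact of_decide_eq_false hc.symm
    have hdx : decide ((φ x).1 < n / 2) = false := decide_eq_false hx
    change (φ x ≠ φ y ∧ _) ↔ f (decide ((φ x).1 < n / 2)) = true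
    rw [hdx]
    constructor
    · rintro ⟨_, ⟨h, _, _⟩ | ⟨_, _, h⟩ | ⟨h, _, _⟩ | ⟨_, h, _⟩⟩
      · exact absurd h hx
      · exact h
      · exact absurd h hx
      · exact absurd h hy
    · intro h
      exact ⟨hne, Or.inr (Or.inl ⟨hx, hy, h⟩)⟩

lemma twoPart_injective (n : ℕ) (f : Bool → Bool) : Function.Injective (twoPart n f) := by
  intro T T' h
  funext i j
  have hne : i.1 ≠ j.1 := by
    intro h'
    have := i.2
    rw [h'] at this
    exact j.2 this
  have h1 := congrArg (fun G : SimpleGraph (Fin n) => G.Adj i.1 j.1) h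
  simp only [twoPart, i.2, j.2, hne, ne_eq, not_false_eq_true, true_and, exists_true_left,
    exists_false, not_true_eq_false, IsEmpty.exists_iff, or_false, false_or, Subtype.coe_eta,
    eq_iff_iff] at h1
  exact Bool.eq_iff_iff.2 h1

lemma card_lt_half (n : ℕ) : Fintype.card {i : Fin n // i.1 < n / 2} = n / 2 := by
  classical
  rw [Fintype.card_subtype]
  rw [Fin.card_filter_val_lt]
  omega

lemma card_not_lt_half (n : ℕ) : Fintype.card {i : Fin n // ¬ i.1 < n / 2} = n - n / 2 := by
  classical
  rw [Fintype.card_subtype_compl, card_lt_half, Fintype.card_fin]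

lemma lower_bound {W : Type*} (H : SimpleGraph W) (n : ℕ) (f : Bool → Bool)
    (hH : ¬ Splits H f) :
    2 ^ (n / 2 * (n - n / 2)) ≤ labCount n (fun G => HFree H G) := by
  classical
  have h1 : (Set.range (twoPart n f)).ncard ≤ labCount n (fun G => HFree H G) := by
    apply Set.ncard_le_ncard _ (Set.toFinite _)
    rintro G ⟨T, rfl⟩
    exact twoPart_hfree H n f hH T
  refine le_trans (le_of_eq ?_) h1
  rw [← Set.image_univ, Set.ncard_image_of_injective _ (twoPart_injective n f), Set.ncard_univ,
    Nat.card_eq_fintype_card, Fintype.card_fun, Fintype.card_fun, Fintype.card_bool, card_lt_half,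
    card_not_lt_half, ← pow_mul, mul_comm (n - n / 2)]

/-! ### The two small graphs -/

lemma embed_core {W : Type*} (H : SimpleGraph W) {n : ℕ} (G : SimpleGraph (Fin n))
    (x y : W) (hxy : ¬ H.Reachable x y) (c : W → Bool)
    (hc : ∀ a b, a ≠ b → c a = c b → H.Adj a b)
    (hx1 : ∀ z, c z = c x → z = x)
    (htri : ∀ a b d, H.Adj a b → H.Adj b d → H.Adj a d → False)
    {w u v : Fin n} (huv : G.Adj u v) (hw : ¬ G.Reachable u w) : H.IsIndContained G := by
  classical
  have hcxy : c y ≠ c x := by
    intro h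
    have := hx1 y h
    rw [this] at hxy
    exact hxy (SimpleGraph.Reachable.refl _)
  have hcl : ∀ z, z ≠ x → c z = c y := by
    intro z hz
    by_contra h
    apply hz
    apply hx1
    cases h1 : c z <;> cases h2 : c y <;> cases h3 : c x <;> simp_all
  have hnadj : ∀ z, z ≠ x → ¬ H.Adj x z := by
    intro z hz hadj
    apply hxy
    by_cases hzy : z = y
    · rw [← hzy]; exact hadj.reachable
    · exact hadj.reachable.trans (hc z y hzy (hcl z hz)).reachable
  have hwu : ¬ G.Adj w u := fun h => hw h.symm.reachable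
  have hwv : ¬ G.Adj w v := fun h => hw (huv.reachable.trans h.symm.reachable)
  have hne1 : w ≠ u := by
    intro h; rw [h] at hw; exact hw (SimpleGraph.Reachable.refl _)
  have hne2 : w ≠ v := by
    intro h; rw [h] at hw; exact hw huv.reachable
  have hne3 : u ≠ v := huv.ne
  let f : W → Fin n := fun z => if z = x then w else if z = y then u else v
  have fx : f x = w := by simp [f]
  have fy : ∀ z, z ≠ x → z = y → f z = u := by
    intro z hz hzy
    simp only [f]
    rw [if_neg hz, if_pos hzy]
  have fz : ∀ z, z ≠ x → z ≠ y → f z = v := by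
    intro z hz hzy
    simp only [f]
    rw [if_neg hz, if_neg hzy]
  have hpair : ∀ a b, a ≠ x → b ≠ x → a ≠ b → a ≠ y → b ≠ y → False := by
    intro a b ha hb hab hay hby
    exact htri a b y (hc a b hab ((hcl a ha).trans (hcl b hb).symm)) (hc b y hby (hcl b hb))
      (hc a y hay (hcl a ha))
  have hinj : Function.Injective f := by
    intro a b hab
    by_contra hne
    by_cases ha : a = x
    · have hb : b ≠ x := fun h => hne (ha.trans h.symm)
      rw [ha, fx] at hab
      by_cases hby : b = y
      · rw [fy b hb hby] at hab; exact hne1 hab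
      · rw [fz b hb hby] at hab; exact hne2 hab
    · by_cases hb : b = x
      · rw [hb, fx] at hab
        by_cases hay : a = y
        · rw [fy a ha hay] at hab; exact hne1 hab.symm
        · rw [fz a ha hay] at hab; exact hne2 hab.symm
      · by_cases hay : a = y
        · have hby : b ≠ y := fun h => hne (hay.trans h.symm)
          rw [fy a ha hay, fz b hb hby] at hab
          exact hne3 hab
        · by_cases hby : b = y
          · rw [fz a ha hay, fy b hb hby] at hab
            exact hne3 hab.symm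
          · exact hpair a b ha hb hne hay hby
  refine ⟨{ toFun := f, inj' := hinj, map_rel_iff' := ?_ }⟩
  intro a b
  change G.Adj (f a) (f b) ↔ H.Adj a b
  by_cases hab : a = b
  · subst hab
    exact iff_of_false (G.loopless.irrefl _) (H.loopless.irrefl _)
  · by_cases ha : a = x
    · have hb : b ≠ x := fun h => hab (ha.trans h.symm)
      rw [ha, fx]
      refine iff_of_false ?_ (hnadj b hb)
      by_cases hby : b = y
      · rw [fy b hb hby]; exact hwu
      · rw [fz b hb hby]; exact hwv
    · by_cases hb : b = x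
      · rw [hb, fx]
        refine iff_of_false ?_ (fun h => hnadj a ha h.symm)
        by_cases hay : a = y
        · rw [fy a ha hay]; exact fun h => hwu h.symm
        · rw [fz a ha hay]; exact fun h => hwv h.symm
      · refine iff_of_true ?_ (hc a b hab ((hcl a ha).trans (hcl b hb).symm))
        by_cases hay : a = y
        · have hby : b ≠ y := fun h => hab (hay.trans h.symm)
          rw [fy a ha hay, fz b hb hby]; exact huv
        · by_cases hby : b = y
          · rw [fz a ha hay, fy b hb hby]; exact huv.symm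
          · exact absurd (hpair a b ha hb hab hay hby) id

lemma exists_not_reachable {V : Type*} {G : SimpleGraph V} (hG : ¬ G.Preconnected) (u : V) :
    ∃ w, ¬ G.Reachable u w := by
  by_contra hcon
  push Not at hcon
  exact hG (fun a b => (hcon a).symm.trans (hcon b))

lemma small_embed {W : Type*} (H : SimpleGraph W) (hdis : ¬ H.Preconnected)
    (h1 : Splits H (fun _ => true)) (h2 : Splits H (fun _ => false)) (h3 : Splits H id)
    {n : ℕ} (G : SimpleGraph (Fin n)) (hG : ¬ G.Preconnected) (hne : G ≠ ⊥) :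
    H.IsIndContained G := by
  classical
  obtain ⟨u, v, huv⟩ : ∃ u v, G.Adj u v := by
    by_contra hcon
    push Not at hcon
    apply hne
    ext a b
    simp [hcon a b]
  obtain ⟨w, hw⟩ := exists_not_reachable hG u
  obtain ⟨c, hc⟩ := h1
  have hc' : ∀ a b, a ≠ b → c a = c b → H.Adj a b := fun a b hab h => (hc a b hab h).2 rfl
  have htri : ∀ a b d, H.Adj a b → H.Adj b d → H.Adj a d → False := by
    obtain ⟨e, he⟩ := h2
    have he' : ∀ a b, H.Adj a b → e a ≠ e b := by
      intro a b hab h
      exact Bool.false_ne_true ((he a b hab.ne h).1 hab)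
    intro a b d hab hbd had
    have e1 := he' a b hab
    have e2 := he' b d hbd
    have e3 := he' a d had
    cases ha : e a <;> cases hb : e b <;> cases hd : e d <;> simp_all
  obtain ⟨x, y, hxy⟩ : ∃ x y, ¬ H.Reachable x y := by
    by_contra hcon
    push Not at hcon
    exact hdis (fun a b => hcon a b)
  by_cases hx1 : ∀ z, c z = c x → z = x
  · exact embed_core H G x y hxy c hc' hx1 htri huv hw
  by_cases hy1 : ∀ z, c z = c y → z = y
  · exact embed_core H G y x (fun h => hxy h.symm) c hc' hy1 htri huv hw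
  exfalso
  push Not at hx1 hy1
  obtain ⟨x', hx', hxx'⟩ := hx1
  obtain ⟨y', hy', hyy'⟩ := hy1
  obtain ⟨s, hs⟩ := h3
  have hcxy : c x ≠ c y := by
    intro h
    apply hxy
    by_cases hxy' : x = y
    · rw [hxy']
    · exact (hc' x y hxy' h).reachable
  have hax : ∃ a, c a = c x ∧ s a = true := by
    by_contra hcon
    push Not at hcon
    have s1 : s x = false := by simpa using hcon x rfl
    have s2 : s x' = false := by simpa using hcon x' hx'
    have := (hs x x' hxx'.symm (s1.trans s2.symm)).1 (hc' x x' hxx'.symm hx'.symm)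
    simp [s1] at this
  have hby : ∃ b, c b = c y ∧ s b = true := by
    by_contra hcon
    push Not at hcon
    have s1 : s y = false := by simpa using hcon y rfl
    have s2 : s y' = false := by simpa using hcon y' hy'
    have := (hs y y' hyy'.symm (s1.trans s2.symm)).1 (hc' y y' hyy'.symm hy'.symm)
    simp [s1] at this
  obtain ⟨a, ha1, ha2⟩ := hax
  obtain ⟨b, hb1, hb2⟩ := hby
  have hab : a ≠ b := by
    intro h
    rw [h, hb1] at ha1
    exact hcxy ha1.symm
  have hadj : H.Adj a b := (hs a b hab (ha2.trans hb2.symm)).2 (by simpa using ha2)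
  apply hxy
  have r1 : H.Reachable x a := by
    by_cases h : x = a
    · rw [h]
    · exact (hc' x a h ha1.symm).reachable
  have r2 : H.Reachable b y := by
    by_cases h : b = y
    · rw [h]
    · exact (hc' b y h hb1).reachable
  exact r1.trans (hadj.reachable.trans r2)

/-- the complete graph with the edges inside the first `k` vertices removed -/
def hole (n k : ℕ) : SimpleGraph (Fin n) where
  Adj x y := x ≠ y ∧ ¬ (x.1 < k ∧ y.1 < k)
  symm := by
    constructor
    rintro x y ⟨hne, h⟩
    exact ⟨hne.symm, fun h' => h ⟨h'.2, h'.1⟩⟩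
  loopless := ⟨fun x h => h.1 rfl⟩

lemma hole_hfree {W : Type*} (H : SimpleGraph W) (hdis : ¬ H.Preconnected) {a b : W}
    (hab : H.Adj a b) (n k : ℕ) : HFree H (hole n k) := by
  rintro ⟨φ⟩
  obtain ⟨z, hz⟩ := exists_not_reachable hdis a
  have hza : z ≠ a := fun h => hz (by rw [h])
  have hzb : z ≠ b := fun h => hz (by rw [h]; exact hab.reachable)
  have n1 : ¬ H.Adj z a := fun h => hz h.symm.reachable
  have n2 : ¬ H.Adj z b := fun h => hz (hab.reachable.trans h.symm.reachable)
  rw [← φ.map_adj_iff] at n1 n2 hab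
  have d1 : φ z ≠ φ a := fun h => hza (φ.injective h)
  have d2 : φ z ≠ φ b := fun h => hzb (φ.injective h)
  have m1 : (φ z).1 < k ∧ (φ a).1 < k := by
    by_contra h
    exact n1 ⟨d1, h⟩
  have m2 : (φ z).1 < k ∧ (φ b).1 < k := by
    by_contra h
    exact n2 ⟨d2, h⟩
  exact hab.2 ⟨m1.2, m2.2⟩

/-- number of vertices with a non-neighbour -/
noncomputable def defect {n : ℕ} (G : SimpleGraph (Fin n)) : ℕ :=
  {i | ∃ j, j ≠ i ∧ ¬ G.Adj i j}.ncard

lemma defect_iso {n : ℕ} {G G' : SimpleGraph (Fin n)} (f : G ≃g G') : defect G ≤ defect G' := by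
  unfold defect
  refine Set.ncard_le_ncard_of_injOn f ?_ (f.injective.injOn) (Set.toFinite _)
  rintro i ⟨j, hj, hadj⟩
  refine ⟨f j, fun h => hj (f.injective h), ?_⟩
  rw [f.map_adj_iff]
  exact hadj

lemma defect_hole {n k : ℕ} (hk : 2 ≤ k) (hkn : k ≤ n) : defect (hole n k) = k := by
  classical
  have h1 : {i : Fin n | ∃ j, j ≠ i ∧ ¬ (hole n k).Adj i j} =
      ((Finset.univ.filter (fun i : Fin n => i.1 < k) : Finset (Fin n)) : Set (Fin n)) := by
    ext i
    simp only [Set.mem_ofPred_eq, Finset.coe_filter, Finset.mem_univ, true_and]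
    constructor
    · rintro ⟨j, hj, hadj⟩
      by_contra h
      exact hadj ⟨hj.symm, fun h' => h h'.1⟩
    · intro hi
      by_cases h0 : i.1 = 0
      · refine ⟨⟨1, by omega⟩, ?_, ?_⟩
        · intro h
          have := congrArg Fin.val h
          simp at this
          omega
        · rintro ⟨_, h⟩
          exact h ⟨hi, by simp; omega⟩
      · refine ⟨⟨0, by omega⟩, ?_, ?_⟩
        · intro h
          have := congrArg Fin.val h
          simp at this
          omega
        · rintro ⟨_, h⟩
          exact h ⟨hi, by simp; omega⟩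
  unfold defect
  rw [h1, Set.ncard_coe_finset, Fin.card_filter_val_lt]
  omega

lemma unlCount_ge {W : Type*} (H : SimpleGraph W) (hdis : ¬ H.Preconnected) {a b : W}
    (hab : H.Adj a b) (n : ℕ) : n - 1 ≤ unlCount n (fun G => HFree H G) := by
  classical
  unfold unlCount
  have h1 : ((fun k => Quotient.mk (isoSetoid n) (hole n k)) ''
      ((Finset.Icc 2 n : Finset ℕ) : Set ℕ)) ⊆
      (Quotient.mk (isoSetoid n)) '' {G | HFree H G} := by
    rintro c ⟨k, _, rfl⟩
    exact ⟨hole n k, hole_hfree H hdis hab n k, rfl⟩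
  refine le_trans ?_ (Set.ncard_le_ncard h1 (Set.toFinite _))
  rw [Set.InjOn.ncard_image, Set.ncard_coe_finset, Nat.card_Icc]
  · omega
  · intro k hk l hl hkl
    rw [Finset.coe_Icc, Set.mem_Icc] at hk hl
    have e : Nonempty (hole n k ≃g hole n l) := Quotient.exact (s := isoSetoid n) hkl
    have e1 := defect_iso e.some
    have e2 := defect_iso e.some.symm
    rw [defect_hole hk.1 hk.2, defect_hole hl.1 hl.2] at e1 e2
    omega

lemma eventually_of_bounds (p : ℕ → ℝ) (c d A : ℕ → ℕ) (hp : ∀ n, p n = (c n : ℝ) / (A n : ℝ))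
    (hA : ∀ n, A n = c n + d n) (hd : ∀ n, 2 ≤ n → d n ≤ 1)
    (hAn : ∀ n, 2 ≤ n → (n - 1 ≤ A n ∨ (d n = 0 ∧ 1 ≤ A n))) (ε : ℝ) (hε : 0 < ε) :
    ∀ᶠ n in atTop, 1 - ε < p n := by
  obtain ⟨M, hM⟩ := exists_nat_gt (1 / ε)
  rw [eventually_atTop]
  refine ⟨M + 2, fun n hn => ?_⟩
  rw [hp]
  have hA' : (A n : ℝ) = c n + d n := by exact_mod_cast hA n
  rcases hAn n (by omega) with h | ⟨h, h'⟩
  · have h1 : (M : ℝ) ≤ (A n : ℝ) := by
      have : M ≤ A n := by omega
      exact_mod_cast this
    have h2 : (0 : ℝ) < 1 / ε := by positivity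
    have h3 : (0 : ℝ) < A n := by linarith
    rw [lt_div_iff₀ h3]
    have h4 : (d n : ℝ) ≤ 1 := by exact_mod_cast hd n (by omega)
    have h5 : 1 < ε * (A n : ℝ) := by
      have h6 : 1 / ε < (A n : ℝ) := lt_of_lt_of_le hM h1
      rw [div_lt_iff₀ hε] at h6
      linarith
    nlinarith
  · have h3 : (0 : ℝ) < A n := by exact_mod_cast h'
    rw [lt_div_iff₀ h3]
    rw [h] at hA'
    push_cast at hA'
    nlinarith

lemma small_case {W : Type*} (H : SimpleGraph W) (hdis : ¬ H.Preconnected)
    (h1 : Splits H (fun _ => true)) (h2 : Splits H (fun _ => false)) (h3 : Splits H id)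
    (ε : ℝ) (hε : 0 < ε) :
    (∀ᶠ n in atTop, 1 - ε < labProb H n) ∧ (∀ᶠ n in atTop, 1 - ε < unlProb H n) := by
  classical
  have hsub : ∀ n, 2 ≤ n → {G : SimpleGraph (Fin n) | HFree H G ∧ ¬ G.Connected} ⊆ {⊥} := by
    rintro n hn G ⟨hG, hc⟩
    by_contra hne
    have : Nonempty (Fin n) := ⟨⟨0, by omega⟩⟩
    apply hG
    exact small_embed H hdis h1 h2 h3 G (fun h => hc ⟨h⟩) hne
  have hdl : ∀ n, 2 ≤ n → labCount n (fun G => HFree H G ∧ ¬ G.Connected) ≤ 1 := by
    intro n hn
    refine (Set.ncard_le_ncard (hsub n hn) (Set.toFinite _)).trans ?_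
    rw [Set.ncard_singleton]
  have hdu : ∀ n, 2 ≤ n → unlCount n (fun G => HFree H G ∧ ¬ G.Connected) ≤ 1 := by
    intro n hn
    exact (unlCount_le_labCount n _).trans (hdl n hn)
  by_cases hedge : ∃ a b, H.Adj a b
  · obtain ⟨a, b, hab⟩ := hedge
    constructor
    · refine eventually_of_bounds _ _ _ _ (fun n => rfl)
        (fun n => labCount_add n (fun G => HFree H G) (fun G => G.Connected)) hdl ?_ ε hε
      intro n hn
      left
      exact (unlCount_ge H hdis hab n).trans (unlCount_le_labCount n _)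
    · refine eventually_of_bounds _ _ _ _ (fun n => rfl)
        (fun n => unlCount_add n (fun G => HFree H G) (fun G => G.Connected)
          (connected_of_iso n)) hdu ?_ ε hε
      intro n hn
      left
      exact unlCount_ge H hdis hab n
  · push Not at hedge
    obtain ⟨x, y, hxy⟩ : ∃ x y, ¬ H.Reachable x y := by
      by_contra hcon
      push Not at hcon
      exact hdis (fun a b => hcon a b)
    have hne : x ≠ y := fun h => hxy (by rw [h])
    obtain ⟨c, hc⟩ := h1
    have hcne : c x ≠ c y := by
      intro h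
      exact hedge x y ((hc x y hne h).2 rfl)
    have hcases : ∀ z, z = x ∨ z = y := by
      intro z
      by_contra hcon
      push Not at hcon
      have c1 : c z ≠ c x := fun h => hedge z x ((hc z x hcon.1 h).2 rfl)
      have c2 : c z ≠ c y := fun h => hedge z y ((hc z y hcon.2 h).2 rfl)
      cases hz : c z <;> cases hx : c x <;> cases hy : c y <;> simp_all
    have hempty : ∀ n, 2 ≤ n → {G : SimpleGraph (Fin n) | HFree H G ∧ ¬ G.Connected} = ∅ := by
      intro n hn
      rw [Set.eq_empty_iff_forall_notMem]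
      intro G hG
      have hG2 := hsub n hn hG
      rw [Set.mem_singleton_iff] at hG2
      apply hG.1
      rw [hG2]
      refine ⟨{ toFun := fun z => if z = x then ⟨0, by omega⟩ else ⟨1, by omega⟩,
                inj' := ?_, map_rel_iff' := ?_ }⟩
      · intro a b hab
        rcases hcases a with rfl | rfl <;> rcases hcases b with rfl | rfl
        · rfl
        · simp [hne.symm] at hab
        · simp [hne.symm] at hab
        · rfl
      · intro a b
        exact iff_of_false (by simp) (hedge a b)
    have htop : ∀ n, HFree H (⊤ : SimpleGraph (Fin n)) := by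
      rintro n ⟨φ⟩
      apply hedge x y
      rw [← φ.map_adj_iff]
      exact fun h => hne (φ.injective h)
    have hl1 : ∀ n, 1 ≤ labCount n (fun G => HFree H G) := by
      intro n
      exact (Set.ncard_pos (Set.toFinite _)).2 ⟨⊤, htop n⟩
    have hu1 : ∀ n, 1 ≤ unlCount n (fun G => HFree H G) := by
      intro n
      exact (Set.ncard_pos (Set.toFinite _)).2 ⟨_, ⟨⊤, htop n, rfl⟩⟩
    constructor
    · refine eventually_of_bounds _ _ _ _ (fun n => rfl)
        (fun n => labCount_add n (fun G => HFree H G) (fun G => G.Connected)) hdl ?_ ε hε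
      intro n hn
      right
      refine ⟨?_, hl1 n⟩
      unfold labCount
      rw [hempty n hn, Set.ncard_empty]
    · refine eventually_of_bounds _ _ _ _ (fun n => rfl)
        (fun n => unlCount_add n (fun G => HFree H G) (fun G => G.Connected)
          (connected_of_iso n)) hdu ?_ ε hε
      intro n hn
      right
      refine ⟨?_, hu1 n⟩
      unfold unlCount
      rw [hempty n hn, Set.image_empty, Set.ncard_empty]

end Pool.Agent.LibConn77
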