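import Pool.Agent.LibConn77.Lab

open Filter Topology

namespace Pool.Agent.LibConn77

/-- the permutation `π` is an automorphism of `G` -/
def Inv {n : ℕ} (π : Equiv.Perm (Fin n)) (G : SimpleGraph (Fin n)) : Prop :=
  ∀ x y, G.Adj (π x) (π y) ↔ G.Adj x y

lemma exists_psi {n : ℕ} (G : SimpleGraph (Fin n)) : ∃ ψ : Equiv.Perm (Fin n),
    ∀ x y, G.Adj (ψ x) (ψ y) ↔ (Quotient.mk (isoSetoid n) G).out.Adj x y := by
  obtain ⟨φ⟩ := isoSetoid_out G
  exact ⟨φ.toEquiv, fun x y => φ.map_adj_iff⟩

lemma burnside {n : ℕ} (P : SimpleGraph (Fin n) → Prop)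
    (hP : ∀ G G' : SimpleGraph (Fin n), Nonempty (G ≃g G') → P G → P G') :
    n.factorial * unlCount n P ≤ ∑ π : Equiv.Perm (Fin n), labCount n (fun G => P G ∧ Inv π G) := by
  classical
  choose ψ hψ using fun G : SimpleGraph (Fin n) => exists_psi G
  set A : Set (Quotient (isoSetoid n) × Equiv.Perm (Fin n)) :=
    ((Quotient.mk (isoSetoid n)) '' {G | P G}) ×ˢ (Set.univ : Set (Equiv.Perm (Fin n))) with hA
  set B : Set (Equiv.Perm (Fin n) × SimpleGraph (Fin n)) := {p | P p.2 ∧ Inv p.1 p.2} with hB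
  let gr : Quotient (isoSetoid n) × Equiv.Perm (Fin n) → SimpleGraph (Fin n) :=
    fun p => p.1.out.comap p.2.symm
  have hgr : ∀ p, Nonempty (p.1.out ≃g gr p) := by
    intro p
    exact ⟨{ toEquiv := p.2, map_rel_iff' := by
              intro a b
              change p.1.out.Adj (p.2.symm (p.2 a)) (p.2.symm (p.2 b)) ↔ _
              rw [Equiv.symm_apply_apply, Equiv.symm_apply_apply] }⟩
  have hcl : ∀ p, Quotient.mk (isoSetoid n) (gr p) = p.1 := by
    intro p
    have h1 : Quotient.mk (isoSetoid n) (gr p) = Quotient.mk (isoSetoid n) p.1.out := by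
      apply Quotient.sound (s := isoSetoid n)
      exact ⟨(hgr p).some.symm⟩
    rw [h1, Quotient.out_eq]
  have h1 : A.ncard ≤ B.ncard := by
    refine Set.ncard_le_ncard_of_injOn (fun p => (p.2 * (ψ (gr p))⁻¹, gr p)) ?_ ?_ (Set.toFinite _)
    · rintro p ⟨⟨G, hG, hGp⟩, _⟩
      refine ⟨?_, ?_⟩
      · refine hP G _ ?_ hG
        have : Nonempty (G ≃g p.1.out) := by
          have h2 := isoSetoid_out G
          rw [hGp] at h2
          exact ⟨h2.some.symm⟩
        exact ⟨this.some.trans (hgr p).some⟩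
      · intro x y
        change p.1.out.Adj (p.2.symm (p.2 ((ψ (gr p)).symm x))) (p.2.symm (p.2 ((ψ (gr p)).symm y)))
          ↔ (gr p).Adj x y
        rw [Equiv.symm_apply_apply, Equiv.symm_apply_apply]
        have h3 := hψ (gr p) ((ψ (gr p)).symm x) ((ψ (gr p)).symm y)
        rw [Equiv.apply_symm_apply, Equiv.apply_symm_apply, hcl] at h3
        exact h3.symm
    · rintro p _ p' _ heq
      simp only [Prod.mk.injEq] at heq
      obtain ⟨e1, e2⟩ := heq
      have e3 : p.1 = p'.1 := by rw [← hcl p, ← hcl p', e2]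
      rw [e2] at e1
      have e4 : p.2 = p'.2 := mul_right_cancel e1
      exact Prod.ext e3 e4
  have h2 : A.ncard = n.factorial * unlCount n P := by
    rw [hA, Set.ncard_prod, Set.ncard_univ, Nat.card_perm, Nat.card_fin, mul_comm]
    rfl
  have h3 : B ⊆ ⋃ π ∈ (Finset.univ : Finset (Equiv.Perm (Fin n))),
      (fun G => (π, G)) '' {G | P G ∧ Inv π G} := by
    rintro ⟨π, G⟩ hp
    simp only [Set.mem_iUnion]
    exact ⟨π, Finset.mem_univ _, G, hp, rfl⟩
  rw [← h2]
  refine h1.trans ((Set.ncard_le_ncard h3 (Set.toFinite _)).trans ((ncard_biUnion_le _ _).trans ?_))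
  apply Finset.sum_le_sum
  intro π _
  exact Set.ncard_image_le (Set.toFinite _)

lemma exists_T {n : ℕ} (π : Equiv.Perm (Fin n)) (t : ℕ) (ht : 3 * t ≤ π.support.card + 2) :
    ∃ T : Finset (Fin n), T.card = t ∧ ∀ x ∈ T, π x ∉ T := by
  classical
  set 𝒯 : Finset (Finset (Fin n)) :=
    (π.support.powerset).filter (fun T => ∀ x ∈ T, π x ∉ T) with h𝒯
  have hne : 𝒯.Nonempty := ⟨∅, by simp [h𝒯]⟩
  obtain ⟨T, hT, hmax⟩ := Finset.exists_max_image 𝒯 Finset.card hne
  rw [h𝒯, Finset.mem_filter, Finset.mem_powerset] at hT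
  obtain ⟨hT1, hT2⟩ := hT
  have hcov : π.support ⊆ T ∪ T.image π ∪ T.image π.symm := by
    intro x hx
    by_contra hcon
    simp only [Finset.mem_union, Finset.mem_image, not_or, not_exists, not_and] at hcon
    obtain ⟨⟨c1, c2⟩, c3⟩ := hcon
    have hx' : π x ≠ x := Equiv.Perm.mem_support.1 hx
    have hmem : insert x T ∈ 𝒯 := by
      rw [h𝒯, Finset.mem_filter, Finset.mem_powerset]
      refine ⟨Finset.insert_subset hx hT1, ?_⟩
      intro y hy
      rw [Finset.mem_insert] at hy ⊢
      rintro (h | h)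
      · rcases hy with rfl | hy
        · exact hx' h
        · exact c2 y hy h
      · rcases hy with rfl | hy
        · exact c3 (π y) h (Equiv.symm_apply_apply _ _)
        · exact hT2 y hy h
    have := hmax _ hmem
    rw [Finset.card_insert_of_notMem c1] at this
    omega
  have hcard : π.support.card ≤ 3 * T.card := by
    have h1 := Finset.card_le_card hcov
    have h2 := Finset.card_union_le (T ∪ T.image π) (T.image π.symm)
    have h3 := Finset.card_union_le T (T.image π)
    have h4 : (T.image π).card ≤ T.card := Finset.card_image_le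
    have h5 : (T.image π.symm).card ≤ T.card := Finset.card_image_le
    omega
  obtain ⟨T', hT', hc⟩ := Finset.exists_subset_card_eq (show t ≤ T.card by omega)
  exact ⟨T', hc, fun x hx hx' => hT2 x (hT' hx) (hT' hx')⟩

lemma fix_le {W : Type*} (H : SimpleGraph W) {n : ℕ} (π : Equiv.Perm (Fin n)) (T : Finset (Fin n))
    (t : ℕ) (hTt : T.card = t) (hT : ∀ x ∈ T, π x ∉ T) :
    labCount n (fun G => HFree H G ∧ Inv π G) ≤ fc H (n - t) * 2 ^ (2 * t ^ 2) := by
  classical
  have hk' : Tᶜ.card = n - t := by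
    rw [Finset.card_compl, Fintype.card_fin, hTt]
  let e2 := Tᶜ.orderEmbOfFin hk'
  have hin2 : ∀ z, z ∉ T → ∃ i, e2 i = z := by
    intro z hz
    have : z ∈ Set.range e2 := by
      rw [Finset.range_orderEmbOfFin]; simpa using hz
    exact this
  let f : SimpleGraph (Fin n) → SimpleGraph (Fin (n - t)) × (T → T → Bool) × (T → T → Bool) :=
    fun G => (G.comap e2, (fun x y => decide (G.Adj x.1 y.1)),
      (fun x y => decide (G.Adj x.1 (π.symm y.1))))
  have h1 : labCount n (fun G => HFree H G ∧ Inv π G) ≤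
      ({G : SimpleGraph (Fin (n - t)) | HFree H G} ×ˢ
        (Set.univ : Set ((T → T → Bool) × (T → T → Bool)))).ncard := by
    refine Set.ncard_le_ncard_of_injOn f ?_ ?_ (Set.toFinite _)
    · rintro G ⟨hG, _⟩
      exact ⟨hG.of_embedding (SimpleGraph.Embedding.comap e2.toEmbedding G), Set.mem_univ _⟩
    · rintro G ⟨_, hG⟩ G' ⟨_, hG'⟩ heq
      simp only [f, Prod.mk.injEq] at heq
      obtain ⟨q1, q2, q3⟩ := heq
      have c1 : ∀ x y, x ∉ T → y ∉ T → (G.Adj x y ↔ G'.Adj x y) := by
        intro x y hx hy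
        obtain ⟨i, rfl⟩ := hin2 x hx
        obtain ⟨j, rfl⟩ := hin2 y hy
        have := congrArg (fun K : SimpleGraph (Fin (n - t)) => K.Adj i j) q1
        simpa using this
      have c2 : ∀ x y, x ∈ T → (G.Adj x y ↔ G'.Adj x y) := by
        intro x y hx
        by_cases hy : y ∈ T
        · have := congrFun (congrFun q2 ⟨x, hx⟩) ⟨y, hy⟩
          simpa using this
        · by_cases hy' : π y ∈ T
          · have := congrFun (congrFun q3 ⟨x, hx⟩) ⟨π y, hy'⟩
            simpa using this
          · rw [← hG x y, ← hG' x y]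
            exact c1 _ _ (hT x hx) hy'
      ext x y
      by_cases hx : x ∈ T
      · exact c2 x y hx
      · by_cases hy : y ∈ T
        · rw [G.adj_comm, G'.adj_comm]
          exact c2 y x hy
        · exact c1 x y hx hy
  refine h1.trans (le_of_eq ?_)
  rw [Set.ncard_prod, Set.ncard_univ, Nat.card_eq_fintype_card, Fintype.card_prod,
    Fintype.card_fun, Fintype.card_fun, Fintype.card_coe, hTt, Fintype.card_bool]
  change fc H (n - t) * _ = _
  congr 1
  rw [← pow_mul, ← pow_add]
  congr 1
  ring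

lemma perm_count (n s : ℕ) :
    (Finset.univ.filter (fun π : Equiv.Perm (Fin n) => π.support.card = s)).card ≤ n ^ (2 * s) := by
  classical
  rw [← Fintype.card_subtype]
  let f : {π : Equiv.Perm (Fin n) // π.support.card = s} → (Fin s → Fin n) × (Fin s → Fin n) :=
    fun p => (fun i => p.1.support.orderEmbOfFin p.2 i,
      fun i => p.1 (p.1.support.orderEmbOfFin p.2 i))
  have hf : Function.Injective f := by
    rintro ⟨π, hπ⟩ ⟨π', hπ'⟩ heq
    simp only [f, Prod.mk.injEq] at heq
    obtain ⟨e1, e2⟩ := heq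
    have hs : ∀ x, x ∈ π.support → ∃ i, π.support.orderEmbOfFin hπ i = x := by
      intro x hx
      have : x ∈ Set.range (π.support.orderEmbOfFin hπ) := by
        rw [Finset.range_orderEmbOfFin]; exact hx
      exact this
    have hs' : ∀ x, x ∈ π'.support → ∃ i, π'.support.orderEmbOfFin hπ' i = x := by
      intro x hx
      have : x ∈ Set.range (π'.support.orderEmbOfFin hπ') := by
        rw [Finset.range_orderEmbOfFin]; exact hx
      exact this
    apply Subtype.ext
    change π = π'
    ext x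
    congr 1
    by_cases hx : x ∈ π.support
    · obtain ⟨i, rfl⟩ := hs x hx
      have h1 := congrFun e2 i
      have h2 := congrFun e1 i
      rw [h1, h2]
    · have hx' : x ∉ π'.support := by
        intro h
        obtain ⟨i, rfl⟩ := hs' x h
        apply hx
        have h2 := congrFun e1 i
        rw [← h2]
        exact Finset.orderEmbOfFin_mem _ _ _
      rw [Equiv.Perm.notMem_support.1 hx, Equiv.Perm.notMem_support.1 hx']
  refine (Fintype.card_le_of_injective f hf).trans (le_of_eq ?_)
  rw [Fintype.card_prod, Fintype.card_fun, Fintype.card_fin, Fintype.card_fin, ← pow_add]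
  congr 1
  ring

end Pool.Agent.LibConn77
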