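import Pool.Agent.LibConn77.Base

open Filter Topology

namespace Pool.Agent.LibConn77

/-- the irregular numbers of a sequence -/
def irreg (D : ℕ → ℝ) : Set ℕ :=
  {n | 4 ≤ n ∧ ∃ k, 1 ≤ k ∧ 2 * k ≤ n ∧ (k : ℝ) / (8 * n) ≤ D (n - k) - D n}

lemma harmonic_interval (M N : ℕ) (hM : 1 ≤ M) (hMN : M ≤ N) :
    ∑ m ∈ Finset.Ioc M N, (1 : ℝ) / m ≤ ((N : ℝ) - M) / M := by
  have hM0 : (0 : ℝ) < M := by exact_mod_cast hM
  calc ∑ m ∈ Finset.Ioc M N, (1 : ℝ) / m ≤ ∑ _m ∈ Finset.Ioc M N, (1 : ℝ) / M := by
        apply Finset.sum_le_sum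
        intro m hm
        rw [Finset.mem_Ioc] at hm
        apply one_div_le_one_div_of_le hM0
        exact_mod_cast hm.1.le
    _ = ((N : ℝ) - M) / M := by
        rw [Finset.sum_const, Nat.card_Ioc, nsmul_eq_mul, Nat.cast_sub hMN]
        ring

lemma irreg_sum_le (D : ℕ → ℝ) (hD : ∀ n, 2 ≤ n → D (n + 1) ≤ D n) (N : ℕ) (hN : 2 ≤ N) :
    ∑ n ∈ Finset.Ioc 2 N, (irreg D).indicator (fun n => 1 / (n : ℝ)) n ≤ 16 * (D 2 - D N) := by
  classical
  have hmono : ∀ a b, 2 ≤ a → a ≤ b → D b ≤ D a := by
    intro a b ha hab
    induction b, hab using Nat.le_induction with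
    | base => exact le_rfl
    | succ b hb ih => exact (hD b (by omega)).trans ih
  induction N using Nat.strong_induction_on with
  | _ N ih =>
    rcases Nat.lt_or_ge N 3 with h3 | h3
    · have : N = 2 := by omega
      subst this
      simp
    · by_cases hirr : N ∈ irreg D
      · obtain ⟨h4, k, hk1, hk2, hk⟩ := hirr
        have hM2 : 2 ≤ N - k := by omega
        have h1 := ih (N - k) (by omega) hM2
        have h2 : Finset.Ioc 2 N = Finset.Ioc 2 (N - k) ∪ Finset.Ioc (N - k) N := by
          ext m
          simp only [Finset.mem_union, Finset.mem_Ioc]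
          omega
        have hdisj : Disjoint (Finset.Ioc 2 (N - k)) (Finset.Ioc (N - k) N) := by
          rw [Finset.disjoint_left]
          intro m hm hm'
          rw [Finset.mem_Ioc] at hm hm'
          omega
        rw [h2, Finset.sum_union hdisj]
        have h3' : ∑ n ∈ Finset.Ioc (N - k) N, (irreg D).indicator (fun n => 1 / (n : ℝ)) n
            ≤ ∑ m ∈ Finset.Ioc (N - k) N, (1 : ℝ) / m := by
          apply Finset.sum_le_sum
          intro m _
          apply Set.indicator_le_self'
          intro _ _
          positivity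
        have h4' := harmonic_interval (N - k) N (by omega) (by omega)
        have h5 : ((N : ℝ) - ((N - k : ℕ) : ℝ)) / ((N - k : ℕ) : ℝ) ≤ 2 * k / N := by
          have hkN : ((N - k : ℕ) : ℝ) = N - k := by
            rw [Nat.cast_sub (by omega)]
          have h6 : 2 * (k : ℝ) ≤ N := by exact_mod_cast hk2
          have h7 : (0 : ℝ) < N := by exact_mod_cast (by omega : 0 < N)
          have h8 : (0 : ℝ) < k := by exact_mod_cast hk1
          rw [hkN, div_le_div_iff₀ (by linarith) h7]
          nlinarith
        have h9 : 2 * (k : ℝ) / N ≤ 16 * (D (N - k) - D N) := by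
          have h7 : (0 : ℝ) < N := by exact_mod_cast (by omega : 0 < N)
          have : 2 * (k : ℝ) / N = 16 * ((k : ℝ) / (8 * N)) := by
            field_simp
            ring
          rw [this]
          linarith
        linarith
      · have h1 := ih (N - 1) (by omega) (by omega)
        have h2 : Finset.Ioc 2 N = insert N (Finset.Ioc 2 (N - 1)) := by
          ext m
          simp only [Finset.mem_insert, Finset.mem_Ioc]
          omega
        have hnot : N ∉ Finset.Ioc 2 (N - 1) := by
          rw [Finset.mem_Ioc]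
          omega
        rw [h2, Finset.sum_insert hnot, Set.indicator_of_notMem hirr]
        have h3' := hmono (N - 1) N (by omega) (by omega)
        linarith

lemma irreg_summable (D : ℕ → ℝ) (hD : ∀ n, 2 ≤ n → D (n + 1) ≤ D n) (hD0 : ∀ n, 0 ≤ D n) :
    Summable ((irreg D).indicator (fun n => 1 / (n : ℝ))) := by
  classical
  have hnn : ∀ n, 0 ≤ (irreg D).indicator (fun n => 1 / (n : ℝ)) n := by
    intro n
    apply Set.indicator_nonneg
    intro m _
    positivity
  apply summable_of_sum_range_le (c := 16 * D 2) hnn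
  intro N
  rcases Nat.lt_or_ge N 3 with h3 | h3
  · have h0 : ∑ i ∈ Finset.range N, (irreg D).indicator (fun n => 1 / (n : ℝ)) i = 0 := by
      apply Finset.sum_eq_zero
      intro i hi
      rw [Finset.mem_range] at hi
      apply Set.indicator_of_notMem
      rintro ⟨h4, _⟩
      omega
    rw [h0]
    have := hD0 2
    linarith
  · have h1 := irreg_sum_le D hD (N - 1) (by omega)
    have h2 : ∑ i ∈ Finset.range N, (irreg D).indicator (fun n => 1 / (n : ℝ)) i
        = ∑ i ∈ Finset.Ioc 2 (N - 1), (irreg D).indicator (fun n => 1 / (n : ℝ)) i := by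
      symm
      apply Finset.sum_subset
      · intro i hi
        rw [Finset.mem_Ioc] at hi
        rw [Finset.mem_range]
        omega
      · intro i hi hi'
        rw [Finset.mem_range] at hi
        rw [Finset.mem_Ioc] at hi'
        apply Set.indicator_of_notMem
        rintro ⟨h4, _⟩
        omega
    rw [h2]
    have := hD0 (N - 1)
    linarith

end Pool.Agent.LibConn77
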