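import Pool.Agent.LibConn77.Unl

open Filter Topology

namespace Pool.Agent.LibConn77

lemma labProb_le_one {W : Type*} (H : SimpleGraph W) (n : ℕ) : labProb H n ≤ 1 := by
  unfold labProb
  apply div_le_one_of_le₀ _ (by positivity)
  have := labCount_add n (fun G => HFree H G) (fun G => G.Connected)
  have h : labCount n (fun G => HFree H G ∧ G.Connected) ≤ labCount n (fun G => HFree H G) := by
    omega
  exact_mod_cast h

lemma unlProb_le_one {W : Type*} (H : SimpleGraph W) (n : ℕ) : unlProb H n ≤ 1 := by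
  unfold unlProb
  apply div_le_one_of_le₀ _ (by positivity)
  have := unlCount_add n (fun G => HFree H G) (fun G => G.Connected) (connected_of_iso n)
  have h : unlCount n (fun G => HFree H G ∧ G.Connected) ≤ unlCount n (fun G => HFree H G) := by
    omega
  exact_mod_cast h

lemma prob_gt (c d A : ℕ) (hA : A = c + d) (h0 : 1 ≤ A) (ε δ : ℝ) (hδ : δ < ε)
    (hd : (d : ℝ) ≤ δ * A) : 1 - ε < (c : ℝ) / A := by
  have h3 : (0 : ℝ) < A := by exact_mod_cast h0
  have hA' : (A : ℝ) = c + d := by exact_mod_cast hA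
  rw [lt_div_iff₀ h3]
  have : δ * (A : ℝ) < ε * A := mul_lt_mul_of_pos_right hδ h3
  linarith

lemma generic_case {W : Type*} (H : SimpleGraph W) (f : Bool → Bool) (hf : ¬ Splits H f) :
    ∃ B : Set ℕ, Summable (B.indicator (fun n => 1 / (n : ℝ))) ∧
      (∀ ε : ℝ, 0 < ε → ∀ᶠ n in atTop, n ∉ B → 1 - ε < labProb H n) ∧
      (∀ ε : ℝ, 0 < ε → ∀ᶠ n in atTop, n ∉ B → 1 - ε < unlProb H n) := by
  have hlow : ∀ n, 2 ^ (n / 2 * (n - n / 2)) ≤ fc H n := fun n => lower_bound H n f hf
  have hpos : ∀ n, 1 ≤ fc H n := fun n => (Nat.one_le_two_pow).trans (hlow n)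
  refine ⟨irreg (DD H), irreg_summable _ (fun n hn => DD_anti H hpos n hn) (DD_nonneg H), ?_, ?_⟩
  · intro ε hε
    have t1 := (qq_tendsto (1 / 16) (by norm_num) 1).eventually
      (gt_mem_nhds (show (0 : ℝ) < min (1 / 2) (ε / 4) by positivity))
    filter_upwards [t1, eventually_ge_atTop 32] with n h1 hn hnB
    have h1a : qq (1 / 16) 1 n ≤ 1 / 2 := h1.le.trans (min_le_left _ _)
    have h1b : qq (1 / 16) 1 n ≤ ε / 4 := h1.le.trans (min_le_right _ _)
    exact prob_gt _ _ _ (labCount_add n (fun G => HFree H G) (fun G => G.Connected)) (hpos n) ε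
      (2 * qq (1 / 16) 1 n) (by linarith) (disc_lab H hlow n (by omega) hnB h1a)
  · intro ε hε
    have t1 := (qq_tendsto (1 / 16) (by norm_num) 1).eventually
      (gt_mem_nhds (show (0 : ℝ) < min (1 / 2) (ε / 8) by positivity))
    have t2 := (qq_tendsto (1 / 24) (by norm_num) 2).eventually
      (gt_mem_nhds (show (0 : ℝ) < min (1 / 2) (ε / 8) by positivity))
    have t3 := (qq_tendsto (1 / 768) (by norm_num) 1).eventually
      (gt_mem_nhds (show (0 : ℝ) < min (1 / 2) (ε / 8) by positivity))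
    filter_upwards [t1, t2, t3, eventually_ge_atTop 32] with n h1 h2 h3 hn hnB
    have h1a : qq (1 / 16) 1 n ≤ 1 / 2 := h1.le.trans (min_le_left _ _)
    have h1b : qq (1 / 16) 1 n ≤ ε / 8 := h1.le.trans (min_le_right _ _)
    have h2a : qq (1 / 24) 2 n ≤ 1 / 2 := h2.le.trans (min_le_left _ _)
    have h2b : qq (1 / 24) 2 n ≤ ε / 8 := h2.le.trans (min_le_right _ _)
    have h3a : qq (1 / 768) 1 n ≤ 1 / 2 := h3.le.trans (min_le_left _ _)
    have h3b : qq (1 / 768) 1 n ≤ ε / 8 := h3.le.trans (min_le_right _ _)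
    have hu : 1 ≤ unlCount n (fun G => HFree H G) := by
      by_contra hcon
      have h0 : unlCount n (fun G => HFree H G) = 0 := by omega
      have h4 := labCount_le_factorial_mul H n
      rw [h0, mul_zero] at h4
      have h5 := hpos n
      unfold fc at h5
      omega
    exact prob_gt _ _ _ (unlCount_add n (fun G => HFree H G) (fun G => G.Connected)
      (connected_of_iso n)) hu ε
      (2 * qq (1 / 16) 1 n + 2 * qq (1 / 24) 2 n + qq (1 / 768) 1 n) (by linarith)
      (disc_unl H hlow n hn hnB h1a h2a (by linarith))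

lemma tendsto_of_eventually (p : ℕ → ℝ) (B : Set ℕ) (h1 : ∀ n, p n ≤ 1)
    (h : ∀ ε : ℝ, 0 < ε → ∀ᶠ n in atTop, n ∉ B → 1 - ε < p n) :
    Tendsto p (atTop ⊓ 𝓟 Bᶜ) (𝓝 1) := by
  rw [Metric.tendsto_nhds]
  intro ε hε
  rw [eventually_inf_principal]
  filter_upwards [h ε hε] with n hn hnB
  have := hn hnB
  have := h1 n
  rw [Real.dist_eq, abs_lt]
  constructor <;> linarith

lemma neBot_of_summable (B : Set ℕ) (hB : Summable (B.indicator (fun n => 1 / (n : ℝ)))) :
    (atTop ⊓ 𝓟 Bᶜ : Filter ℕ).NeBot := by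
  rw [← frequently_mem_iff_neBot]
  intro hcon
  have h1 : ∀ᶠ n in atTop, n ∈ B := by
    filter_upwards [hcon] with n hn
    simpa using hn
  apply Real.not_summable_one_div_natCast
  rw [eventually_atTop] at h1
  obtain ⟨N, hN⟩ := h1
  rw [← summable_nat_add_iff N]
  rw [← summable_nat_add_iff N] at hB
  refine hB.congr ?_
  intro n
  rw [Set.indicator_of_mem (hN _ (by omega))]

lemma not_limit (p : ℕ → ℝ) (B : Set ℕ) (hB : (atTop ⊓ 𝓟 Bᶜ : Filter ℕ).NeBot)
    (h : Tendsto p (atTop ⊓ 𝓟 Bᶜ) (𝓝 1)) : ¬ LimitProperty p := by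
  rintro ⟨l, _, hl1, hl⟩
  have h2 : Tendsto p (atTop ⊓ 𝓟 Bᶜ) (𝓝 l) := hl.mono_left inf_le_left
  have := tendsto_nhds_unique h h2
  linarith

/-- For every disconnected graph `H`, in the labelled and in the unlabelled model, the
probability that a random `H`-free graph on `n` vertices is connected tends to `1` as `n` tends
to infinity outside a set `B` of integers with `∑ n ∈ B, 1 / n < ∞`; so no disconnected graph has
the limit property, in either model. -/
theorem main {m : ℕ} (H : SimpleGraph (Fin m)) (hH : ¬ H.Preconnected) :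
    (¬ LimitProperty (labProb H) ∧ ¬ LimitProperty (unlProb H)) ∧
    ∃ B : Set ℕ, Summable (B.indicator fun n => 1 / (n : ℝ)) ∧
      Tendsto (labProb H) (atTop ⊓ 𝓟 Bᶜ) (𝓝 1) ∧
      Tendsto (unlProb H) (atTop ⊓ 𝓟 Bᶜ) (𝓝 1) := by
  have key : ∃ B : Set ℕ, Summable (B.indicator (fun n => 1 / (n : ℝ))) ∧
      (∀ ε : ℝ, 0 < ε → ∀ᶠ n in atTop, n ∉ B → 1 - ε < labProb H n) ∧
      (∀ ε : ℝ, 0 < ε → ∀ᶠ n in atTop, n ∉ B → 1 - ε < unlProb H n) := by
    by_cases h1 : Splits H (fun _ => true)
    · by_cases h2 : Splits H (fun _ => false)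
      · by_cases h3 : Splits H id
        · refine ⟨∅, ?_, ?_, ?_⟩
          · rw [Set.indicator_empty]
            exact summable_zero
          · intro ε hε
            filter_upwards [(small_case H hH h1 h2 h3 ε hε).1] with n hn _
            exact hn
          · intro ε hε
            filter_upwards [(small_case H hH h1 h2 h3 ε hε).2] with n hn _
            exact hn
        · exact generic_case H _ h3
      · exact generic_case H _ h2
    · exact generic_case H _ h1
  obtain ⟨B, hB, hl, hu⟩ := key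
  have t1 := tendsto_of_eventually _ B (labProb_le_one H) hl
  have t2 := tendsto_of_eventually _ B (unlProb_le_one H) hu
  have hne := neBot_of_summable B hB
  exact ⟨⟨not_limit _ B hne t1, not_limit _ B hne t2⟩, B, hB, t1, t2⟩

end Pool.Agent.LibConn77
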