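import Pool.Agent.LibConn77.Reg

open Filter Topology

namespace Pool.Agent.LibConn77

lemma geom_Icc_le (q : ℝ) (h0 : 0 ≤ q) (h1 : q ≤ 1 / 2) (m : ℕ) :
    ∑ k ∈ Finset.Icc 1 m, q ^ k ≤ 2 * q := by
  have key : ∀ m : ℕ, ∑ k ∈ Finset.Icc 1 m, q ^ k ≤ 2 * q - 2 * q ^ (m + 1) := by
    intro m
    induction m with
    | zero => simp
    | succ m ih =>
      rw [Finset.sum_Icc_succ_top (by omega)]
      have h2 : q ^ (m + 1 + 1) ≤ q ^ (m + 1) * (1 / 2) := by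
        rw [pow_succ]
        exact mul_le_mul_of_nonneg_left h1 (by positivity)
      linarith
  have := key m
  have h3 : 0 ≤ q ^ (m + 1) := by positivity
  linarith

/-- the basic small quantity -/
noncomputable def qq (c : ℝ) (a : ℕ) (n : ℕ) : ℝ := (n : ℝ) ^ a * 2 ^ (-((n : ℝ) * c))

lemma qq_tendsto (c : ℝ) (hc : 0 < c) (a : ℕ) : Tendsto (qq c a) atTop (𝓝 0) := by
  have h1 : Tendsto (fun n : ℕ => (n : ℝ) ^ a / ((2 : ℝ) ^ c) ^ n) atTop (𝓝 0) := by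
    apply tendsto_pow_const_div_const_pow_of_one_lt
    exact Real.one_lt_rpow (by norm_num) hc
  refine h1.congr ?_
  intro n
  unfold qq
  rw [Real.rpow_neg (by norm_num), mul_comm (n : ℝ) c, Real.rpow_mul (by norm_num),
    Real.rpow_natCast, div_eq_mul_inv]

lemma qq_nonneg (c : ℝ) (a n : ℕ) : 0 ≤ qq c a n := by
  unfold qq
  positivity

lemma disc_lab {W : Type*} (H : SimpleGraph W)
    (hlow : ∀ n, 2 ^ (n / 2 * (n - n / 2)) ≤ fc H n) (n : ℕ) (hn : 4 ≤ n)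
    (hreg : n ∉ irreg (DD H)) (hq : qq (1 / 16) 1 n ≤ 1 / 2) :
    (labCount n (fun G => HFree H G ∧ ¬ G.Connected) : ℝ) ≤ 2 * qq (1 / 16) 1 n * fc H n := by
  have h1 : ((labCount n (fun G => HFree H G ∧ ¬ G.Connected) : ℕ) : ℝ) ≤
      ∑ k ∈ Finset.Icc 1 (n / 2), (n.choose k : ℝ) * ((fc H k : ℝ) * (fc H (n - k) : ℝ)) := by
    have := labelled_split H n (by omega)
    exact_mod_cast this
  refine h1.trans ?_
  have h2 : ∀ k ∈ Finset.Icc 1 (n / 2),
      (n.choose k : ℝ) * ((fc H k : ℝ) * (fc H (n - k) : ℝ)) ≤ (qq (1 / 16) 1 n) ^ k * fc H n := by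
    intro k hk
    rw [Finset.mem_Icc] at hk
    have h3 := reg_two H hlow n hn hreg k hk.1 (by omega)
    have h4 : ((n.choose k : ℕ) : ℝ) ≤ (n : ℝ) ^ k := by
      exact_mod_cast Nat.choose_le_pow n k
    have h5 : (qq (1 / 16) 1 n) ^ k = (n : ℝ) ^ k * 2 ^ (-(((k : ℝ) * n) / 16)) := by
      unfold qq
      rw [pow_one, mul_pow, ← Real.rpow_natCast (_ ^ (_ : ℝ)), ← Real.rpow_mul (by norm_num)]
      congr 2
      ring
    have h6 : (fc H k : ℝ) * (fc H (n - k) : ℝ) ≤ 2 ^ (-(((k : ℝ) * n) / 16)) * fc H n := by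
      rw [Real.rpow_neg (by norm_num), inv_mul_eq_div, le_div_iff₀ (by positivity)]
      exact h3
    calc (n.choose k : ℝ) * ((fc H k : ℝ) * (fc H (n - k) : ℝ))
        ≤ (n : ℝ) ^ k * (2 ^ (-(((k : ℝ) * n) / 16)) * fc H n) := by
          apply mul_le_mul h4 h6 (by positivity) (by positivity)
      _ = _ := by rw [h5]; ring
  calc _ ≤ ∑ k ∈ Finset.Icc 1 (n / 2), (qq (1 / 16) 1 n) ^ k * (fc H n : ℝ) :=
        Finset.sum_le_sum h2
    _ = (∑ k ∈ Finset.Icc 1 (n / 2), (qq (1 / 16) 1 n) ^ k) * (fc H n : ℝ) := by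
        rw [Finset.sum_mul]
    _ ≤ _ := by
        apply mul_le_mul_of_nonneg_right _ (by positivity)
        exact geom_Icc_le _ (qq_nonneg _ _ _) hq _

end Pool.Agent.LibConn77
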