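import Pool.Agent.LibConn77.Base

open Filter Topology

namespace Pool.Agent.LibConn77

/-- the set of edges as a finset -/
noncomputable def edges {V : Type*} [Fintype V] (G : SimpleGraph V) : Finset (Sym2 V) := by
  classical
  exact Finset.univ.filter (fun e => e ∈ G.edgeSet)

lemma mem_edges {V : Type*} [Fintype V] (G : SimpleGraph V) (e : Sym2 V) :
    e ∈ edges G ↔ e ∈ G.edgeSet := by
  classical
  unfold edges
  simp

lemma edges_inj {V : Type*} [Fintype V] : Function.Injective (edges : SimpleGraph V → _) := by
  intro G G' h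
  apply SimpleGraph.edgeSet_injective
  ext e
  rw [← mem_edges, ← mem_edges, h]

/-- the pairs avoiding `i` -/
noncomputable def avoid (n : ℕ) (i : Fin (n + 1)) : Finset (Sym2 (Fin (n + 1))) := by
  classical
  exact Finset.univ.filter (fun e => i ∉ e)

lemma mem_avoid (n : ℕ) (i : Fin (n + 1)) (e : Sym2 (Fin (n + 1))) :
    e ∈ avoid n i ↔ i ∉ e := by
  classical
  unfold avoid
  simp

lemma edges_inter_avoid (n : ℕ) (i : Fin (n + 1)) (G : SimpleGraph (Fin (n + 1)))
    [DecidableEq (Sym2 (Fin (n + 1)))] :
    edges G ∩ avoid n i = (edges (G.comap i.succAbove)).image (Sym2.map i.succAbove) := by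
  ext e
  induction e using Sym2.ind with
  | _ a b =>
    simp only [Finset.mem_inter, mem_edges, mem_avoid, Finset.mem_image, SimpleGraph.mem_edgeSet,
      Sym2.mem_iff, not_or]
    constructor
    · rintro ⟨hab, ha, hb⟩
      obtain ⟨x, hx⟩ := Fin.exists_succAbove_eq (Ne.symm ha)
      obtain ⟨y, hy⟩ := Fin.exists_succAbove_eq (Ne.symm hb)
      refine ⟨s(x, y), ?_, ?_⟩
      · rw [SimpleGraph.mem_edgeSet, SimpleGraph.comap_adj, hx, hy]
        exact hab
      · rw [Sym2.map_mk, hx, hy]
    · rintro ⟨e, he, hab⟩
      induction e using Sym2.ind with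
      | _ x y =>
        rw [SimpleGraph.mem_edgeSet, SimpleGraph.comap_adj] at he
        rw [Sym2.map_mk, Sym2.eq_iff] at hab
        rcases hab with ⟨h1, h2⟩ | ⟨h1, h2⟩
        · rw [← h1, ← h2]
          exact ⟨he, (Fin.succAbove_ne i x).symm, (Fin.succAbove_ne i y).symm⟩
        · rw [← h1, ← h2]
          exact ⟨he.symm, (Fin.succAbove_ne i y).symm, (Fin.succAbove_ne i x).symm⟩

lemma labCount_shearer {W : Type*} (H : SimpleGraph W) (n : ℕ)
    (hne : 1 ≤ labCount (n + 1) (fun G => HFree H G)) :
    labCount (n + 1) (fun G => HFree H G) ^ (n - 1) ≤ labCount n (fun G => HFree H G) ^ (n + 1) := by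
  classical
  set S : Set (SimpleGraph (Fin (n + 1))) := {G | HFree H G} with hS
  set 𝓕 : Finset (Finset (Sym2 (Fin (n + 1)))) := (Set.toFinite (edges '' S)).toFinset with hF
  have hcard : 𝓕.card = labCount (n + 1) (fun G => HFree H G) := by
    rw [hF, ← Set.ncard_eq_toFinset_card _ (Set.toFinite _),
      Set.ncard_image_of_injective _ edges_inj]
    rfl
  have hsh := Pool.Agent.LibRank66.shearer 𝓕 (avoid n) (n - 1)
    (Finset.univ.filter (fun e => ¬ e.IsDiag)) ?_ ?_ ?_
  · rw [hcard] at hsh
    refine hsh.trans ?_
    calc ∏ i, (𝓕.image fun F => F ∩ avoid n i).card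
        ≤ ∏ _i : Fin (n + 1), labCount n (fun G => HFree H G) := by
          apply Finset.prod_le_prod'
          intro i _
          have h1 : ((𝓕.image fun F => F ∩ avoid n i : Finset (Finset (Sym2 (Fin (n + 1))))) :
              Set (Finset (Sym2 (Fin (n + 1))))) ⊆
              (fun G' : SimpleGraph (Fin n) => (edges G').image (Sym2.map i.succAbove)) ''
                {G' | HFree H G'} := by
            intro F hFm
            rw [Finset.coe_image] at hFm
            obtain ⟨F0, hF0, rfl⟩ := hFm
            rw [Finset.mem_coe, hF, Set.Finite.mem_toFinset] at hF0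
            obtain ⟨G, hG, rfl⟩ := hF0
            refine ⟨G.comap i.succAbove, ?_, (edges_inter_avoid n i G).symm⟩
            exact HFree.of_embedding hG (SimpleGraph.Embedding.comap i.succAboveEmb G)
          have h2 := Set.ncard_le_ncard h1 (Set.toFinite _)
          rw [Set.ncard_coe_finset] at h2
          exact h2.trans (Set.ncard_image_le (Set.toFinite _))
      _ = _ := by rw [Finset.prod_const, Finset.card_univ, Fintype.card_fin]
  · intro F hFm e he
    rw [hF, Set.Finite.mem_toFinset] at hFm
    obtain ⟨G, _, rfl⟩ := hFm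
    rw [mem_edges] at he
    rw [Finset.mem_filter]
    exact ⟨Finset.mem_univ _, G.not_isDiag_of_mem_edgeSet he⟩
  · intro e he
    rw [Finset.mem_filter] at he
    induction e using Sym2.ind with
    | _ a b =>
      have hab : a ≠ b := by
        intro h
        exact he.2 (by rw [h]; simp)
      have : (Finset.univ.filter fun i => s(a, b) ∈ avoid n i) = ({a, b} : Finset _)ᶜ := by
        ext i
        simp only [Finset.mem_filter, Finset.mem_univ, true_and, mem_avoid, Sym2.mem_iff,
          Finset.mem_compl, Finset.mem_insert, Finset.mem_singleton]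
      rw [this, Finset.card_compl, Fintype.card_fin, Finset.card_pair hab]
      omega
  · rw [← Finset.card_pos, hcard]
    exact hne

end Pool.Agent.LibConn77
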