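import Pool.Agent.LibConn77.Mono
import Pool.Agent.LibConn77.Cover

open Filter Topology

namespace Pool.Agent.LibConn77

/-- the number of `H`-free graphs -/
noncomputable def fc {W : Type*} (H : SimpleGraph W) (n : ℕ) : ℕ := labCount n (fun G => HFree H G)

/-- binary logarithm of the number of `H`-free graphs -/
noncomputable def FF {W : Type*} (H : SimpleGraph W) (n : ℕ) : ℝ := Real.logb 2 (fc H n)

/-- normalised entropy -/
noncomputable def DD {W : Type*} (H : SimpleGraph W) (n : ℕ) : ℝ :=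
  2 * FF H n / ((n : ℝ) * ((n : ℝ) - 1))

lemma FF_nonneg {W : Type*} (H : SimpleGraph W) (n : ℕ) : 0 ≤ FF H n := by
  unfold FF
  rcases Nat.eq_zero_or_pos (fc H n) with h | h
  · rw [h]; simp
  · apply Real.logb_nonneg (by norm_num)
    exact_mod_cast h

lemma DD_nonneg {W : Type*} (H : SimpleGraph W) (n : ℕ) : 0 ≤ DD H n := by
  unfold DD
  have h1 := FF_nonneg H n
  rcases Nat.eq_zero_or_pos n with h | h
  · subst h; simp
  · have : (1 : ℝ) ≤ n := by exact_mod_cast h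
    have h2 : (0 : ℝ) ≤ (n : ℝ) * ((n : ℝ) - 1) := mul_nonneg (by linarith) (by linarith)
    positivity

lemma DD_anti {W : Type*} (H : SimpleGraph W) (hpos : ∀ n, 1 ≤ fc H n) (n : ℕ) (hn : 2 ≤ n) :
    DD H (n + 1) ≤ DD H n := by
  have h1 := labCount_shearer H n (hpos (n + 1))
  have h2 : ((n : ℝ) - 1) * FF H (n + 1) ≤ ((n : ℝ) + 1) * FF H n := by
    have h3 : ((fc H (n + 1) : ℕ) : ℝ) ^ (n - 1) ≤ ((fc H n : ℕ) : ℝ) ^ (n + 1) := by
      exact_mod_cast h1
    have p1 : (0 : ℝ) < ((fc H (n + 1) : ℕ) : ℝ) := by exact_mod_cast hpos (n + 1)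
    have h4 := Real.logb_le_logb_of_le (b := 2) (by norm_num) (by positivity) h3
    rw [Real.logb_pow, Real.logb_pow] at h4
    rw [Nat.cast_sub (by omega)] at h4
    push_cast at h4
    exact h4
  have hn' : (2 : ℝ) ≤ n := by exact_mod_cast hn
  unfold DD
  push_cast
  rw [div_le_div_iff₀ (by nlinarith) (by nlinarith)]
  nlinarith

lemma fc_two_le {W : Type*} (H : SimpleGraph W) : fc H 2 ≤ 2 := by
  classical
  unfold fc labCount
  refine (Set.ncard_le_ncard (Set.subset_univ _) (Set.toFinite _)).trans ?_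
  have h1 : Function.Injective (fun G : SimpleGraph (Fin 2) => decide (G.Adj 0 1)) := by
    intro G G' h
    have h' : G.Adj 0 1 ↔ G'.Adj 0 1 := by
      simpa using h
    ext x y
    fin_cases x <;> fin_cases y
    · simp
    · simpa using h'
    · simpa [SimpleGraph.adj_comm] using h'
    · simp
  have h2 := Set.ncard_le_ncard_of_injOn (s := (Set.univ : Set (SimpleGraph (Fin 2))))
    (t := (Set.univ : Set Bool)) _ (fun _ _ => Set.mem_univ _) h1.injOn (Set.toFinite _)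
  rw [Set.ncard_univ Bool] at h2
  simpa using h2

lemma FF_le {W : Type*} (H : SimpleGraph W) (hpos : ∀ n, 1 ≤ fc H n) (k : ℕ) (hk : 1 ≤ k) :
    FF H k ≤ (k : ℝ) * ((k : ℝ) - 1) / 2 := by
  rcases Nat.lt_or_ge k 2 with h | h
  · have : k = 1 := by omega
    subst this
    have h1 : fc H 1 ≤ 1 := by
      unfold fc labCount
      have : ({G | HFree H G} : Set (SimpleGraph (Fin 1))) ⊆ {⊥} := by
        intro G _
        rw [Set.mem_singleton_iff]
        ext x y
        have : x = y := Subsingleton.elim _ _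
        subst this
        simp
      refine (Set.ncard_le_ncard this (Set.toFinite _)).trans ?_
      rw [Set.ncard_singleton]
    have h2 : fc H 1 = 1 := le_antisymm h1 (hpos 1)
    unfold FF
    rw [h2]
    simp
  · have hmono : ∀ b, 2 ≤ b → DD H b ≤ DD H 2 := by
      intro b hb
      induction b, hb using Nat.le_induction with
      | base => exact le_rfl
      | succ b hb ih => exact (DD_anti H hpos b hb).trans ih
    have h1 := hmono k h
    have h2 : DD H 2 ≤ 1 := by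
      unfold DD FF
      have h3 : Real.logb 2 ((fc H 2 : ℕ) : ℝ) ≤ 1 := by
        have h4 : ((fc H 2 : ℕ) : ℝ) ≤ 2 := by exact_mod_cast fc_two_le H
        have h5 : (0 : ℝ) < ((fc H 2 : ℕ) : ℝ) := by exact_mod_cast hpos 2
        calc Real.logb 2 ((fc H 2 : ℕ) : ℝ) ≤ Real.logb 2 2 :=
              Real.logb_le_logb_of_le (by norm_num) h5 h4
          _ = 1 := Real.logb_self_eq_one (by norm_num)
      push_cast
      norm_num
      linarith
    have h3 := h1.trans h2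
    unfold DD at h3
    have hk' : (2 : ℝ) ≤ k := by exact_mod_cast h
    rw [div_le_iff₀ (by nlinarith)] at h3
    linarith

lemma DD_ge {W : Type*} (H : SimpleGraph W)
    (hlow : ∀ n, 2 ^ (n / 2 * (n - n / 2)) ≤ fc H n) (n : ℕ) (hn : 2 ≤ n) : 1 / 2 ≤ DD H n := by
  have h1 : (((n / 2 * (n - n / 2) : ℕ) : ℝ)) ≤ FF H n := by
    unfold FF
    have h2 : ((2 : ℝ) ^ (n / 2 * (n - n / 2))) ≤ ((fc H n : ℕ) : ℝ) := by
      exact_mod_cast hlow n
    have h3 := Real.logb_le_logb_of_le (b := 2) (by norm_num) (by positivity) h2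
    rw [Real.logb_pow, Real.logb_self_eq_one (by norm_num), mul_one] at h3
    exact h3
  have h2 : ((n : ℝ) * (n : ℝ) - 1) / 4 ≤ ((n / 2 * (n - n / 2) : ℕ) : ℝ) := by
    rcases Nat.even_or_odd' n with ⟨m, hm | hm⟩
    · have e1 : n / 2 = m := by omega
      have e2 : n - n / 2 = m := by omega
      rw [e1, show n - m = m by omega, hm]
      push_cast
      nlinarith
    · have e1 : n / 2 = m := by omega
      rw [e1, show n - m = m + 1 by omega, hm]
      push_cast
      nlinarith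
  have hn' : (2 : ℝ) ≤ n := by exact_mod_cast hn
  unfold DD
  rw [le_div_iff₀ (by nlinarith)]
  nlinarith

/-- growth at regular orders -/
lemma reg_growth {W : Type*} (H : SimpleGraph W)
    (hlow : ∀ n, 2 ^ (n / 2 * (n - n / 2)) ≤ fc H n) (n : ℕ) (hn : 4 ≤ n)
    (hreg : n ∉ irreg (DD H)) (k : ℕ) (hk1 : 1 ≤ k) (hk2 : 2 * k ≤ n) :
    (k : ℝ) * (2 * n - k - 1) / 4 - k * n / 16 ≤ FF H n - FF H (n - k) := by
  have hpos : ∀ n, 1 ≤ fc H n := fun n => (Nat.one_le_two_pow).trans (hlow n)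
  have h1 : DD H (n - k) - DD H n < (k : ℝ) / (8 * n) := by
    by_contra hcon
    exact hreg ⟨hn, k, hk1, hk2, not_lt.1 hcon⟩
  have hn' : (4 : ℝ) ≤ n := by exact_mod_cast hn
  have hk' : (1 : ℝ) ≤ k := by exact_mod_cast hk1
  have hk2' : 2 * (k : ℝ) ≤ n := by exact_mod_cast hk2
  have hnk : ((n - k : ℕ) : ℝ) = n - k := by rw [Nat.cast_sub (by omega)]
  have hDn := DD_ge H hlow n (by omega)
  have e1 : FF H n = DD H n * ((n : ℝ) * (n - 1)) / 2 := by
    unfold DD
    have : (n : ℝ) * ((n : ℝ) - 1) ≠ 0 := by nlinarith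
    rw [div_mul_cancel₀ _ this]
    ring
  have e2 : FF H (n - k) = DD H (n - k) * (((n : ℝ) - k) * ((n : ℝ) - k - 1)) / 2 := by
    unfold DD
    rw [hnk]
    have : ((n : ℝ) - k) * ((n : ℝ) - k - 1) ≠ 0 := by
      have : (0 : ℝ) < ((n : ℝ) - k) * ((n : ℝ) - k - 1) := by
        apply mul_pos <;> linarith
      exact this.ne'
    rw [div_mul_cancel₀ _ this]
    ring
  have h2 : DD H (n - k) * (((n : ℝ) - k) * ((n : ℝ) - k - 1)) ≤
      (DD H n + (k : ℝ) / (8 * n)) * (((n : ℝ) - k) * ((n : ℝ) - k - 1)) := by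
    apply mul_le_mul_of_nonneg_right (by linarith)
    apply mul_nonneg <;> linarith
  have h3 : (k : ℝ) / (8 * n) * (((n : ℝ) - k) * ((n : ℝ) - k - 1)) ≤ k * n / 8 := by
    have h4 : ((n : ℝ) - k) * ((n : ℝ) - k - 1) ≤ n * n := by nlinarith
    calc (k : ℝ) / (8 * n) * (((n : ℝ) - k) * ((n : ℝ) - k - 1))
        ≤ (k : ℝ) / (8 * n) * (n * n) := mul_le_mul_of_nonneg_left h4 (by positivity)
      _ = k * n / 8 := by field_simp
  have h5 : 0 ≤ (k : ℝ) * (2 * n - k - 1) := by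
    apply mul_nonneg (by linarith)
    linarith
  have h6 : (k : ℝ) * (2 * n - k - 1) * (1 / 2) ≤ (k : ℝ) * (2 * n - k - 1) * DD H n :=
    mul_le_mul_of_nonneg_left hDn h5
  rw [e1, e2]
  nlinarith

lemma reg_one {W : Type*} (H : SimpleGraph W)
    (hlow : ∀ n, 2 ^ (n / 2 * (n - n / 2)) ≤ fc H n) (n : ℕ) (hn : 4 ≤ n)
    (hreg : n ∉ irreg (DD H)) (k : ℕ) (hk1 : 1 ≤ k) (hk2 : 2 * k ≤ n) :
    (fc H (n - k) : ℝ) * 2 ^ (((k : ℝ) * n) / 4) ≤ fc H n := by
  have hpos : ∀ n, 1 ≤ fc H n := fun n => (Nat.one_le_two_pow).trans (hlow n)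
  have h1 := reg_growth H hlow n hn hreg k hk1 hk2
  have hn' : (4 : ℝ) ≤ n := by exact_mod_cast hn
  have hk' : (1 : ℝ) ≤ k := by exact_mod_cast hk1
  have hk2' : 2 * (k : ℝ) ≤ n := by exact_mod_cast hk2
  have h2 : ((k : ℝ) * n) / 4 + FF H (n - k) ≤ FF H n := by nlinarith
  have p1 : (0 : ℝ) < (fc H n : ℝ) := by exact_mod_cast hpos n
  have p2 : (0 : ℝ) < (fc H (n - k) : ℝ) := by exact_mod_cast hpos (n - k)
  have h3 : (2 : ℝ) ^ (((k : ℝ) * n) / 4 + FF H (n - k)) ≤ (2 : ℝ) ^ (FF H n) :=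
    Real.rpow_le_rpow_of_exponent_le (by norm_num) h2
  rw [Real.rpow_add (by norm_num)] at h3
  unfold FF at h3
  rw [Real.rpow_logb (by norm_num) (by norm_num) p1,
    Real.rpow_logb (by norm_num) (by norm_num) p2] at h3
  linarith

lemma reg_two {W : Type*} (H : SimpleGraph W)
    (hlow : ∀ n, 2 ^ (n / 2 * (n - n / 2)) ≤ fc H n) (n : ℕ) (hn : 4 ≤ n)
    (hreg : n ∉ irreg (DD H)) (k : ℕ) (hk1 : 1 ≤ k) (hk2 : 2 * k ≤ n) :
    (fc H k : ℝ) * (fc H (n - k) : ℝ) * 2 ^ (((k : ℝ) * n) / 16) ≤ fc H n := by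
  have hpos : ∀ n, 1 ≤ fc H n := fun n => (Nat.one_le_two_pow).trans (hlow n)
  have h1 := reg_growth H hlow n hn hreg k hk1 hk2
  have h1' := FF_le H hpos k hk1
  have hn' : (4 : ℝ) ≤ n := by exact_mod_cast hn
  have hk' : (1 : ℝ) ≤ k := by exact_mod_cast hk1
  have hk2' : 2 * (k : ℝ) ≤ n := by exact_mod_cast hk2
  have h2 : ((k : ℝ) * n) / 16 + FF H (n - k) + FF H k ≤ FF H n := by nlinarith
  have p1 : (0 : ℝ) < (fc H n : ℝ) := by exact_mod_cast hpos n
  have p2 : (0 : ℝ) < (fc H (n - k) : ℝ) := by exact_mod_cast hpos (n - k)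
  have p3 : (0 : ℝ) < (fc H k : ℝ) := by exact_mod_cast hpos k
  have h3 : (2 : ℝ) ^ (((k : ℝ) * n) / 16 + FF H (n - k) + FF H k) ≤ (2 : ℝ) ^ (FF H n) :=
    Real.rpow_le_rpow_of_exponent_le (by norm_num) h2
  rw [Real.rpow_add (by norm_num), Real.rpow_add (by norm_num)] at h3
  unfold FF at h3
  rw [Real.rpow_logb (by norm_num) (by norm_num) p1,
    Real.rpow_logb (by norm_num) (by norm_num) p2,
    Real.rpow_logb (by norm_num) (by norm_num) p3] at h3
  linarith

end Pool.Agent.LibConn77
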