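import Pool.Agent.LibConn77.Burn

open Filter Topology

namespace Pool.Agent.LibConn77

/-- the bound for a permutation moving `s` points -/
noncomputable def gg (n s : ℕ) : ℝ :=
  if s ≤ n / 16 then (2 : ℝ) ^ (-((s : ℝ) * n / 24)) else (2 : ℝ) ^ (-((n : ℝ) * n / 768))

lemma fix_bound {W : Type*} (H : SimpleGraph W)
    (hlow : ∀ n, 2 ^ (n / 2 * (n - n / 2)) ≤ fc H n) (n : ℕ) (hn : 32 ≤ n)
    (hreg : n ∉ irreg (DD H)) (π : Equiv.Perm (Fin n)) (hπ : 1 ≤ π.support.card) :
    (labCount n (fun G => HFree H G ∧ Inv π G) : ℝ) ≤ gg n π.support.card * fc H n := by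
  classical
  set s := π.support.card with hs
  set t := (min s (n / 16) + 2) / 3 with ht
  obtain ⟨T, hTt, hT⟩ := exists_T π t (by omega)
  have h1 : (labCount n (fun G => HFree H G ∧ Inv π G) : ℝ) ≤ (fc H (n - t) : ℝ) * 2 ^ (2 * t ^ 2) := by
    exact_mod_cast fix_le H π T t hTt hT
  have ht1 : 1 ≤ t := by omega
  have ht2 : 16 * t ≤ n := by omega
  have h2 := reg_one H hlow n (by omega) hreg t ht1 (by omega)
  have ht1' : (1 : ℝ) ≤ t := by exact_mod_cast ht1
  have ht2' : 16 * (t : ℝ) ≤ n := by exact_mod_cast ht2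
  have hn' : (32 : ℝ) ≤ n := by exact_mod_cast hn
  have h3 : (2 : ℝ) ^ (2 * t ^ 2) ≤ 2 ^ (((t : ℝ) * n) / 8) := by
    rw [← Real.rpow_natCast]
    apply Real.rpow_le_rpow_of_exponent_le (by norm_num)
    push_cast
    nlinarith
  have h4 : (fc H (n - t) : ℝ) * 2 ^ (2 * t ^ 2) ≤ 2 ^ (-(((t : ℝ) * n) / 8)) * fc H n := by
    have e : (2 : ℝ) ^ (((t : ℝ) * n) / 4) = 2 ^ (((t : ℝ) * n) / 8) * 2 ^ (((t : ℝ) * n) / 8) := by
      rw [← Real.rpow_add (by norm_num)]
      congr 1
      ring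
    rw [e] at h2
    rw [Real.rpow_neg (by norm_num), inv_mul_eq_div, le_div_iff₀ (by positivity)]
    calc (fc H (n - t) : ℝ) * 2 ^ (2 * t ^ 2) * 2 ^ (((t : ℝ) * n) / 8)
        ≤ (fc H (n - t) : ℝ) * 2 ^ (((t : ℝ) * n) / 8) * 2 ^ (((t : ℝ) * n) / 8) := by
          apply mul_le_mul_of_nonneg_right _ (by positivity)
          exact mul_le_mul_of_nonneg_left h3 (by positivity)
      _ ≤ _ := by linarith
  refine h1.trans (h4.trans ?_)
  apply mul_le_mul_of_nonneg_right _ (by positivity)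
  unfold gg
  split_ifs with hc
  · apply Real.rpow_le_rpow_of_exponent_le (by norm_num)
    have h5 : s ≤ 3 * t := by omega
    have h5' : (s : ℝ) ≤ 3 * t := by exact_mod_cast h5
    nlinarith
  · apply Real.rpow_le_rpow_of_exponent_le (by norm_num)
    have h5 : n ≤ 96 * t := by omega
    have h5' : (n : ℝ) ≤ 96 * t := by exact_mod_cast h5
    nlinarith

lemma sum_gg (n : ℕ) (hn : 32 ≤ n) (hq2 : qq (1 / 24) 2 n ≤ 1 / 2) (hq3 : qq (1 / 768) 1 n ≤ 1) :
    ∑ π ∈ (Finset.univ.erase (1 : Equiv.Perm (Fin n))), gg n π.support.card ≤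
      2 * qq (1 / 24) 2 n + qq (1 / 768) 1 n := by
  classical
  have hsupp : ∀ π ∈ (Finset.univ.erase (1 : Equiv.Perm (Fin n))), 1 ≤ π.support.card := by
    intro π hπ
    rw [Finset.mem_erase] at hπ
    rw [Nat.one_le_iff_ne_zero]
    intro h
    apply hπ.1
    rw [Finset.card_eq_zero, Equiv.Perm.support_eq_empty_iff] at h
    exact h
  rw [← Finset.sum_filter_add_sum_filter_not _ (fun π => π.support.card ≤ n / 16)]
  apply add_le_add
  · have h1 : ∑ π ∈ (Finset.univ.erase (1 : Equiv.Perm (Fin n))).filter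
        (fun π => π.support.card ≤ n / 16), gg n π.support.card
        = ∑ s ∈ Finset.Icc 1 (n / 16), ∑ π ∈ ((Finset.univ.erase (1 : Equiv.Perm (Fin n))).filter
        (fun π => π.support.card ≤ n / 16)).filter (fun π => π.support.card = s),
          gg n π.support.card := by
      rw [Finset.sum_fiberwise_of_maps_to]
      intro π hπ
      rw [Finset.mem_filter] at hπ
      rw [Finset.mem_Icc]
      exact ⟨hsupp π hπ.1, hπ.2⟩
    rw [h1]
    refine le_trans ?_ (geom_Icc_le (qq (1 / 24) 2 n) (qq_nonneg _ _ _) hq2 (n / 16))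
    apply Finset.sum_le_sum
    intro s hs
    rw [Finset.mem_Icc] at hs
    have h2 : ∀ π ∈ ((Finset.univ.erase (1 : Equiv.Perm (Fin n))).filter
        (fun π => π.support.card ≤ n / 16)).filter (fun π => π.support.card = s),
        gg n π.support.card = (2 : ℝ) ^ (-((s : ℝ) * n / 24)) := by
      intro π hπ
      rw [Finset.mem_filter] at hπ
      rw [hπ.2]
      unfold gg
      rw [if_pos hs.2]
    rw [Finset.sum_congr rfl h2, Finset.sum_const, nsmul_eq_mul]
    have h3 : (((Finset.univ.erase (1 : Equiv.Perm (Fin n))).filter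
        (fun π => π.support.card ≤ n / 16)).filter (fun π => π.support.card = s)).card
        ≤ n ^ (2 * s) := by
      refine le_trans (Finset.card_le_card ?_) (perm_count n s)
      intro π hπ
      rw [Finset.mem_filter] at hπ ⊢
      exact ⟨Finset.mem_univ _, hπ.2⟩
    have h3' : (((((Finset.univ.erase (1 : Equiv.Perm (Fin n))).filter
        (fun π => π.support.card ≤ n / 16)).filter (fun π => π.support.card = s)).card : ℕ) : ℝ)
        ≤ (n : ℝ) ^ (2 * s) := by exact_mod_cast h3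
    have h5 : (qq (1 / 24) 2 n) ^ s = (n : ℝ) ^ (2 * s) * 2 ^ (-((s : ℝ) * n / 24)) := by
      unfold qq
      rw [mul_pow, ← pow_mul, ← Real.rpow_natCast (_ ^ (_ : ℝ)), ← Real.rpow_mul (by norm_num)]
      congr 2
      ring
    rw [h5]
    exact mul_le_mul_of_nonneg_right h3' (by positivity)
  · have h2 : ∀ π ∈ (Finset.univ.erase (1 : Equiv.Perm (Fin n))).filter
        (fun π => ¬ π.support.card ≤ n / 16),
        gg n π.support.card = (2 : ℝ) ^ (-((n : ℝ) * n / 768)) := by
      intro π hπ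
      rw [Finset.mem_filter] at hπ
      unfold gg
      rw [if_neg hπ.2]
    rw [Finset.sum_congr rfl h2, Finset.sum_const, nsmul_eq_mul]
    have h3 : ((Finset.univ.erase (1 : Equiv.Perm (Fin n))).filter
        (fun π => ¬ π.support.card ≤ n / 16)).card ≤ n ^ n := by
      refine (Finset.card_filter_le _ _).trans ((Finset.card_le_card (Finset.erase_subset _ _)).trans ?_)
      rw [Finset.card_univ, Fintype.card_perm, Fintype.card_fin]
      exact Nat.factorial_le_pow n
    have h3' : ((((Finset.univ.erase (1 : Equiv.Perm (Fin n))).filter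
        (fun π => ¬ π.support.card ≤ n / 16)).card : ℕ) : ℝ) ≤ (n : ℝ) ^ n := by exact_mod_cast h3
    have h5 : (qq (1 / 768) 1 n) ^ n = (n : ℝ) ^ n * 2 ^ (-((n : ℝ) * n / 768)) := by
      unfold qq
      rw [pow_one, mul_pow, ← Real.rpow_natCast (_ ^ (_ : ℝ)), ← Real.rpow_mul (by norm_num)]
      congr 2
      ring
    calc _ ≤ (n : ℝ) ^ n * 2 ^ (-((n : ℝ) * n / 768)) :=
          mul_le_mul_of_nonneg_right h3' (by positivity)
      _ = (qq (1 / 768) 1 n) ^ n := h5.symm
      _ ≤ qq (1 / 768) 1 n := by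
          apply pow_le_of_le_one (qq_nonneg _ _ _) hq3
          omega

lemma disc_unl {W : Type*} (H : SimpleGraph W)
    (hlow : ∀ n, 2 ^ (n / 2 * (n - n / 2)) ≤ fc H n) (n : ℕ) (hn : 32 ≤ n)
    (hreg : n ∉ irreg (DD H)) (hq : qq (1 / 16) 1 n ≤ 1 / 2) (hq2 : qq (1 / 24) 2 n ≤ 1 / 2)
    (hq3 : qq (1 / 768) 1 n ≤ 1) :
    (unlCount n (fun G => HFree H G ∧ ¬ G.Connected) : ℝ) ≤
      (2 * qq (1 / 16) 1 n + 2 * qq (1 / 24) 2 n + qq (1 / 768) 1 n) *
        (unlCount n (fun G => HFree H G) : ℝ) := by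
  classical
  have h1 := burnside (n := n) (fun G => HFree H G ∧ ¬ G.Connected) (by
    rintro G G' ⟨φ⟩ ⟨h1, h2⟩
    exact ⟨h1.of_iso φ, fun h => h2 ((SimpleGraph.Iso.connected_iff φ).2 h)⟩)
  have h1' : (n.factorial : ℝ) * (unlCount n (fun G => HFree H G ∧ ¬ G.Connected) : ℝ) ≤
      ∑ π : Equiv.Perm (Fin n),
        (labCount n (fun G => (HFree H G ∧ ¬ G.Connected) ∧ Inv π G) : ℝ) := by
    exact_mod_cast h1
  rw [← Finset.add_sum_erase _ _ (Finset.mem_univ (1 : Equiv.Perm (Fin n)))] at h1'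
  have h2 : (labCount n (fun G => (HFree H G ∧ ¬ G.Connected) ∧ Inv 1 G) : ℝ) ≤
      2 * qq (1 / 16) 1 n * fc H n := by
    refine le_trans ?_ (disc_lab H hlow n (by omega) hreg hq)
    have : labCount n (fun G => (HFree H G ∧ ¬ G.Connected) ∧ Inv 1 G) ≤
        labCount n (fun G => HFree H G ∧ ¬ G.Connected) := by
      unfold labCount
      exact Set.ncard_le_ncard (fun G hG => hG.1) (Set.toFinite _)
    exact_mod_cast this
  have h3 : ∑ π ∈ (Finset.univ.erase (1 : Equiv.Perm (Fin n))),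
      (labCount n (fun G => (HFree H G ∧ ¬ G.Connected) ∧ Inv π G) : ℝ) ≤
      (2 * qq (1 / 24) 2 n + qq (1 / 768) 1 n) * fc H n := by
    refine le_trans ?_ (mul_le_mul_of_nonneg_right (sum_gg n hn hq2 hq3) (by positivity))
    rw [Finset.sum_mul]
    apply Finset.sum_le_sum
    intro π hπ
    have hs : 1 ≤ π.support.card := by
      rw [Finset.mem_erase] at hπ
      rw [Nat.one_le_iff_ne_zero]
      intro h
      apply hπ.1
      rw [Finset.card_eq_zero, Equiv.Perm.support_eq_empty_iff] at h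
      exact h
    refine le_trans ?_ (fix_bound H hlow n hn hreg π hs)
    have : labCount n (fun G => (HFree H G ∧ ¬ G.Connected) ∧ Inv π G) ≤
        labCount n (fun G => HFree H G ∧ Inv π G) := by
      unfold labCount
      exact Set.ncard_le_ncard (fun G hG => ⟨hG.1.1, hG.2⟩) (Set.toFinite _)
    exact_mod_cast this
  have h4 : (fc H n : ℝ) ≤ (n.factorial : ℝ) * (unlCount n (fun G => HFree H G) : ℝ) := by
    exact_mod_cast labCount_le_factorial_mul H n
  have hnf : (0 : ℝ) < (n.factorial : ℝ) := by exact_mod_cast n.factorial_pos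
  have q1 := qq_nonneg (1 / 16) 1 n
  have q2 := qq_nonneg (1 / 24) 2 n
  have q3 := qq_nonneg (1 / 768) 1 n
  have h5 : (n.factorial : ℝ) * (unlCount n (fun G => HFree H G ∧ ¬ G.Connected) : ℝ) ≤
      (n.factorial : ℝ) * ((2 * qq (1 / 16) 1 n + 2 * qq (1 / 24) 2 n + qq (1 / 768) 1 n) *
        (unlCount n (fun G => HFree H G) : ℝ)) := by
    calc _ ≤ (2 * qq (1 / 16) 1 n + 2 * qq (1 / 24) 2 n + qq (1 / 768) 1 n) * fc H n := by
          linarith
      _ ≤ (2 * qq (1 / 16) 1 n + 2 * qq (1 / 24) 2 n + qq (1 / 768) 1 n) *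
          ((n.factorial : ℝ) * (unlCount n (fun G => HFree H G) : ℝ)) :=
          mul_le_mul_of_nonneg_left h4 (by positivity)
      _ = _ := by ring
  exact le_of_mul_le_mul_left h5 hnf

end Pool.Agent.LibConn77
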